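import Mathlib
import Pool.Agent.H9.Lib.R_seed8.H393R2.CV
import Pool.Agent.H9.Lib.R_seed8.H706R2.NonConc2

/-!
Project SST: definitions and lemma statements for

* the `S`-adic subspace theorem over `ℚ` with rational linear forms (`SubspaceStmt`), and
* the growth theorem `Gr p q s` for every `s < 2` (`×p, ×q`, `p, q` coprime).
-/

set_option autoImplicit false

open Finset Filter Topology

namespace Pool.Agent.TH461.SST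

open Pool.Agent.H393R2 (Dset bterm Sk)
open Pool.Agent.H706R2 (dZ X)

/-! ### Part A: the subspace theorem -/

/-- `d` are the coefficients of the multihomogeneous form with coefficients `c` after the linear
substitution `X = N Y`; the identity holds in every commutative ring. -/
def SubId {m n : ℕ} (r : Fin m → ℕ) (c : (Fin m → Fin n → ℕ) → ℤ)
    (N : Matrix (Fin n) (Fin n) ℤ) (d : (Fin m → Fin n → ℕ) → ℤ) : Prop :=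
  ∀ (R : Type) [CommRing R] (W : Fin m → Fin n → R),
    ∑ a ∈ Dset m n r, (c a : R) * ∏ h, ∏ l, (∑ i, ((N l i : ℤ) : R) * W h i) ^ (a h l) =
      ∑ J ∈ Dset m n r, (d J : R) * ∏ h, ∏ l, W h l ^ (J h l)

/-- the nonzero coefficients are balanced -/
def Bal {m n : ℕ} (r : Fin m → ℕ) (τ : ℝ) (d : (Fin m → Fin n → ℕ) → ℤ) : Prop :=
  ∀ J ∈ Dset m n r, d J ≠ 0 → ∀ l : Fin n,
    |∑ h, (J h l : ℝ) / (r h : ℝ) - (m : ℝ) / (n : ℝ)| ≤ τ * m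

/-- A1: the auxiliary polynomial -/
def AuxStmt : Prop :=
  ∀ (n : ℕ) (_ : 1 ≤ n) (s : ℕ) (M : Fin s → Matrix (Fin n) (Fin n) ℤ) (τ : ℝ) (_ : 0 < τ),
    ∃ C : ℝ, 1 ≤ C ∧ ∃ m0 : ℕ, ∀ m : ℕ, m0 ≤ m → ∀ r : Fin m → ℕ, (∀ h, 0 < r h) →
      ∃ c : (Fin m → Fin n → ℕ) → ℤ, (∃ a ∈ Dset m n r, c a ≠ 0) ∧
        (∀ a ∈ Dset m n r, |(c a : ℝ)| ≤ C ^ (∑ h, r h)) ∧
        ∀ v, ∃ d : (Fin m → Fin n → ℕ) → ℤ,
          (∀ J ∈ Dset m n r, |(d J : ℝ)| ≤ C ^ (∑ h, r h)) ∧ Bal r τ d ∧ SubId r c (M v) d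

/-- A2: the divided derivative in terms of the forms `M` -/
def ExpandStmt : Prop :=
  ∀ (R : Type) [CommRing R] (m n : ℕ) (r : Fin m → ℕ) (j1 : Fin n) (k : Fin m → ℕ)
    (c d : (Fin m → Fin n → ℕ) → ℤ) (M : Matrix (Fin n) (Fin n) ℤ),
    SubId r c M.adjugate d → ∀ W : Fin m → Fin n → R,
    ((M.det ^ (∑ h, r h) : ℤ) : R) * Sk r j1 k c W =
      ∑ J ∈ Dset m n r, (d J : R) * ∏ h,
        ∑ κ ∈ Finset.piAntidiag (Finset.univ : Finset (Fin n)) (k h),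
          ∏ l, ((((J h l).choose (κ l) : ℕ) : R) * ((M l j1 : ℤ) : R) ^ (κ l) *
            (∑ i, ((M l i : ℤ) : R) * W h i) ^ (J h l - κ l))

/-- the archimedean size bound -/
noncomputable def Big {m n : ℕ} (r k : Fin m → ℕ) (X : ℝ) (d0 : (Fin m → Fin n → ℕ) → ℤ)
    (A : Fin m → Fin n → ℝ) : ℝ :=
  X ^ (∑ h, r h) * ∑ J ∈ Dset m n r, |(d0 J : ℝ)| * ∏ h,
    ∑ κ ∈ Finset.piAntidiag (Finset.univ : Finset (Fin n)) (k h),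
      ∏ l, (((J h l).choose (κ l) : ℝ) * X ^ (κ l) * (X * A h l) ^ (J h l - κ l))

/-- lower bound `E` for the divisibility exponents of the terms of an expansion -/
def LowExp {m n : ℕ} (r k : Fin m → ℕ) (d : (Fin m → Fin n → ℕ) → ℤ) (e : Fin m → Fin n → ℕ)
    (E : ℕ) : Prop :=
  ∀ J ∈ Dset m n r, d J ≠ 0 → ∀ κ : Fin m → Fin n → ℕ, (∀ h, ∑ l, κ h l = k h) →
    (∀ h l, κ h l ≤ J h l) → E ≤ ∑ h, ∑ l, e h l * (J h l - κ h l)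

/-- A3: vanishing on products of hyperplanes -/
def VanishStmt : Prop :=
  ∀ (m n s n' : ℕ) (r : Fin m → ℕ) (j1 : Fin n) (k : Fin m → ℕ) (c : (Fin m → Fin n → ℕ) → ℤ)
    (M0 : Matrix (Fin n) (Fin n) ℤ) (_ : M0.det ≠ 0) (M : Fin s → Matrix (Fin n) (Fin n) ℤ)
    (_ : ∀ v, (M v).det ≠ 0) (b : Fin s → ℕ) (_ : ∀ v, 2 ≤ b v)
    (_ : ∀ v v', v ≠ v' → Nat.Coprime (b v) (b v'))
    (d0 : (Fin m → Fin n → ℕ) → ℤ) (_ : SubId r c M0.adjugate d0)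
    (d : Fin s → (Fin m → Fin n → ℕ) → ℤ) (_ : ∀ v, SubId r c (M v).adjugate (d v))
    (w : Fin m → Fin n' → Fin n → ℤ) (e : Fin m → Fin s → Fin n → ℕ)
    (_ : ∀ h v i l, (b v : ℤ) ^ (e h v l) ∣ ∑ j, M v l j * w h i j)
    (E : Fin s → ℕ) (_ : ∀ v, LowExp r k (d v) (fun h => e h v) (E v))
    (X : ℝ) (_ : 1 ≤ X) (_ : ∏ v, |((M v).det : ℝ)| ≤ X) (_ : ∀ l, |(M0 l j1 : ℝ)| ≤ X)
    (A : Fin m → Fin n → ℝ)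
    (_ : ∀ h l, ∑ i, |((∑ j, M0 l j * w h i j : ℤ) : ℝ)| ≤ X * A h l)
    (_ : Big r k X d0 A < ∏ v, (b v : ℝ) ^ (E v)),
    ∀ u : Fin m → Fin n' → ℝ, Sk r j1 k c (fun h l => ∑ i, u h i * (w h i l : ℝ)) = 0

/-- A4: the numerical estimate -/
def EstStmt : Prop :=
  ∀ (n s : ℕ) (_ : 1 ≤ n) (c γ : ℝ) (_ : 1 ≤ c) (_ : 0 < γ) (b : Fin s → ℕ) (_ : ∀ v, 2 ≤ b v),
    ∃ τ0 : ℝ, 0 < τ0 ∧ ∀ τ : ℝ, 0 < τ → τ ≤ τ0 → ∀ C X : ℝ, 1 ≤ C → 1 ≤ X →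
      ∃ Ns : ℝ, 1 ≤ Ns ∧ ∀ (m : ℕ) (_ : 0 < m) (r : Fin m → ℕ) (_ : ∀ h, 0 < r h)
        (k : Fin m → ℕ) (_ : ∑ h, (k h : ℝ) / (r h : ℝ) < τ)
        (N : Fin m → ℝ) (_ : ∀ h, Ns ≤ N h) (R0 : ℝ) (_ : ∀ h, (1 - τ) * R0 ≤ r h * N h)
        (_ : ∀ h, r h * N h ≤ R0)
        (α : Fin n → ℝ) (ε : Fin s → Fin n → ℝ) (_ : ∀ l, |α l| ≤ c)
        (_ : ∀ v l, 0 ≤ ε v l ∧ ε v l ≤ c) (_ : ∑ l, α l + γ ≤ ∑ v, ∑ l, ε v l)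
        (A : Fin m → Fin n → ℝ) (_ : ∀ h l, 0 < A h l)
        (_ : ∀ h l, |Real.log (A h l) - α l * N h| ≤ τ * N h)
        (e : Fin m → Fin s → Fin n → ℕ)
        (_ : ∀ h v l, |(e h v l : ℝ) * Real.log (b v) - ε v l * N h| ≤ τ * N h)
        (d0 : (Fin m → Fin n → ℕ) → ℤ) (_ : ∀ J ∈ Dset m n r, |(d0 J : ℝ)| ≤ C ^ (∑ h, r h))
        (_ : Bal r τ d0)
        (d : Fin s → (Fin m → Fin n → ℕ) → ℤ) (_ : ∀ v, Bal r τ (d v)),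
        ∃ E : Fin s → ℕ, (∀ v, LowExp r k (d v) (fun h => e h v) (E v)) ∧
          Big r k X d0 A < ∏ v, (b v : ℝ) ^ (E v)

/-- the places: the real place with the forms `M0`, and finitely many coprime moduli `b v` with the
forms `M v` -/
def Places {ι : Type} [Fintype ι] [DecidableEq ι] {s : ℕ} (M0 : Matrix ι ι ℤ)
    (M : Fin s → Matrix ι ι ℤ) (b : Fin s → ℕ) : Prop :=
  M0.det ≠ 0 ∧ (∀ v, (M v).det ≠ 0) ∧ (∀ v, 2 ≤ b v) ∧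
    ∀ v v', v ≠ v' → Nat.Coprime (b v) (b v')

/-- the size conditions: `A l` at the real place, `e v l` at the place `v`; `N` is the logarithmic
height, and the double product is at most `exp (-γ N)` -/
def Size {ι : Type} [Fintype ι] {s : ℕ} (b : Fin s → ℕ) (c γ N : ℝ) (e : Fin s → ι → ℕ)
    (A : ι → ℝ) : Prop :=
  (∀ v l, (e v l : ℝ) * Real.log (b v) ≤ c * N) ∧ (∀ l, 0 < A l) ∧
    (∀ l, |Real.log (A l)| ≤ c * N) ∧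
    ∑ l, Real.log (A l) + γ * N ≤ ∑ v, ∑ l, (e v l : ℝ) * Real.log (b v)

/-- the integer vector `x` satisfies the conditions `(A, e)` -/
def Sol {ι : Type} [Fintype ι] {s : ℕ} (M0 : Matrix ι ι ℤ) (M : Fin s → Matrix ι ι ℤ)
    (b : Fin s → ℕ) (e : Fin s → ι → ℕ) (A : ι → ℝ) (x : ι → ℤ) : Prop :=
  (∀ l, |((∑ j, M0 l j * x j : ℤ) : ℝ)| ≤ A l) ∧
    ∀ v l, (b v : ℤ) ^ (e v l) ∣ ∑ j, M v l j * x j

/-- A5: no sequence of hyperplanes of large height containing `n'` independent solutions -/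
def CoreStmt : Prop :=
  ∀ (n' : ℕ) (_ : 1 ≤ n') (s : ℕ) (M0 : Matrix (Fin (n' + 1)) (Fin (n' + 1)) ℤ)
    (M : Fin s → Matrix (Fin (n' + 1)) (Fin (n' + 1)) ℤ) (b : Fin s → ℕ) (_ : Places M0 M b)
    (j1 j2 : Fin (n' + 1)) (_ : j1 ≠ j2) (c γ : ℝ) (_ : 1 ≤ c) (_ : 0 < γ)
    (N : ℕ → ℝ) (_ : Tendsto N atTop atTop) (_ : ∀ t, 0 < N t)
    (e : ℕ → Fin s → Fin (n' + 1) → ℕ) (A : ℕ → Fin (n' + 1) → ℝ)
    (_ : ∀ t, Size b c γ (N t) (e t) (A t))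
    (w : ℕ → Fin n' → Fin (n' + 1) → ℤ) (_ : ∀ t, LinearIndependent ℤ (w t))
    (_ : ∀ t i, Sol M0 M b (e t) (A t) (w t i))
    (x : ℕ → Fin (n' + 1) → ℤ) (_ : ∀ t i, ∑ l, x t l * w t i l = 0) (_ : ∀ t, x t j1 ≠ 0)
    (P Q : ℕ → ℤ) (_ : ∀ t, IsCoprime (P t) (Q t)) (_ : ∀ t, Q t ≠ 0)
    (_ : ∀ t, x t j1 * P t = -(x t j2 * Q t))
    (_ : ∀ t, N t / c ≤ Real.log (max |(P t : ℝ)| |(Q t : ℝ)|)), False

/-- A6: a vector of large height has a pair of coordinates with ratio of large height -/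
def HeightPairStmt : Prop :=
  ∀ (n' : ℕ) (x : Fin (n' + 1) → ℤ) (_ : x ≠ 0) (H : ℝ) (_ : 1 ≤ H)
    (_ : ∀ y : Fin (n' + 1) → ℤ, y ≠ 0 → (∀ i j, x i * y j = x j * y i) →
      ∃ l, H ^ (n' + 1) < |(y l : ℝ)|),
    ∃ j1 j2 : Fin (n' + 1), j1 ≠ j2 ∧ x j1 ≠ 0 ∧ ∃ P Q : ℤ, IsCoprime P Q ∧ Q ≠ 0 ∧
      x j1 * P = -(x j2 * Q) ∧ H ≤ max |(P : ℝ)| |(Q : ℝ)|

/-- A7: hyperplanes of small height containing `n'` independent solutions are finite in number -/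
def DichStmt : Prop :=
  ∀ (n' : ℕ) (s : ℕ) (M0 : Matrix (Fin (n' + 1)) (Fin (n' + 1)) ℤ)
    (M : Fin s → Matrix (Fin (n' + 1)) (Fin (n' + 1)) ℤ) (b : Fin s → ℕ) (_ : Places M0 M b)
    (γ : ℝ) (_ : 0 < γ),
    ∃ c0 : ℝ, 0 < c0 ∧ ∃ Y : Finset (Fin (n' + 1) → ℤ), (∀ y ∈ Y, y ≠ 0) ∧
      ∃ N1 : ℝ, ∀ (c N : ℝ) (_ : N1 ≤ N) (e : Fin s → Fin (n' + 1) → ℕ)
        (A : Fin (n' + 1) → ℝ) (_ : Size b c γ N e A)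
        (w : Fin n' → Fin (n' + 1) → ℤ) (_ : LinearIndependent ℤ w)
        (_ : ∀ i, Sol M0 M b e A (w i))
        (y : Fin (n' + 1) → ℤ) (_ : y ≠ 0) (_ : ∀ i, ∑ l, y l * w i l = 0)
        (_ : ∀ l, |(y l : ℝ)| ≤ Real.exp (c0 * N)),
        ∃ y' ∈ Y, ∀ i, ∑ l, y' l * w i l = 0

/-- A8: the penultimate theorem, for the index set `Fin (n' + 1)` -/
def PenStmt : Prop :=
  ∀ (n' : ℕ) (_ : 1 ≤ n') (s : ℕ) (M0 : Matrix (Fin (n' + 1)) (Fin (n' + 1)) ℤ)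
    (M : Fin s → Matrix (Fin (n' + 1)) (Fin (n' + 1)) ℤ) (b : Fin s → ℕ) (_ : Places M0 M b)
    (c γ : ℝ) (_ : 1 ≤ c) (_ : 0 < γ) (N : ℕ → ℝ) (_ : Tendsto N atTop atTop)
    (e : ℕ → Fin s → Fin (n' + 1) → ℕ) (A : ℕ → Fin (n' + 1) → ℝ)
    (_ : ∀ t, Size b c γ (N t) (e t) (A t))
    (w : ℕ → Fin n' → Fin (n' + 1) → ℤ) (_ : ∀ t, LinearIndependent ℤ (w t))
    (_ : ∀ t i, Sol M0 M b (e t) (A t) (w t i)),
    ∃ y : Fin (n' + 1) → ℤ, y ≠ 0 ∧ ∃ᶠ t in atTop, ∀ i, ∑ l, y l * w t i l = 0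

/-- A9: the subspace theorem -/
def SubspaceStmt : Prop :=
  ∀ (n s : ℕ) (_ : 1 ≤ n) (M0 : Matrix (Fin n) (Fin n) ℤ) (M : Fin s → Matrix (Fin n) (Fin n) ℤ)
    (b : Fin s → ℕ) (_ : Places M0 M b) (c γ : ℝ) (_ : 1 ≤ c) (_ : 0 < γ)
    (N : ℕ → ℝ) (_ : Tendsto N atTop atTop)
    (e : ℕ → Fin s → Fin n → ℕ) (A : ℕ → Fin n → ℝ) (_ : ∀ t, Size b c γ (N t) (e t) (A t))
    (x : ℕ → Fin n → ℤ) (_ : ∀ t, x t ≠ 0) (_ : ∀ t, Sol M0 M b (e t) (A t) (x t)),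
    ∃ y : Fin n → ℤ, y ≠ 0 ∧ ∃ᶠ t in atTop, ∑ l, y l * x t l = 0

/-! ### Part B: lattices and compounds -/

/-- B1: a basis of the lattice defined by divisibility conditions -/
def BasisStmt : Prop :=
  ∀ (n s : ℕ) (M : Fin s → Matrix (Fin n) (Fin n) ℤ) (b : Fin s → ℕ) (_ : ∀ v, 2 ≤ b v)
    (e : Fin s → Fin n → ℕ),
    ∃ B : Matrix (Fin n) (Fin n) ℤ, B.det ≠ 0 ∧ |B.det| ≤ ∏ v, ∏ l, (b v : ℤ) ^ (e v l) ∧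
      ∀ y : Fin n → ℤ, (∀ v l, (b v : ℤ) ^ (e v l) ∣ ∑ j, M v l j * y j) ↔
        ∃ z : Fin n → ℤ, y = B.mulVec z

/-- the `k`-element subsets of `Fin n` -/
abbrev Ix (n k : ℕ) := {Q : Finset (Fin n) // Q.card = k}

/-- Plücker coordinates of an `n × k` matrix -/
def wedge {R : Type*} [CommRing R] {n k : ℕ} (V : Matrix (Fin n) (Fin k) R) (I : Ix n k) : R :=
  (V.submatrix (I.1.orderEmbOfFin I.2) id).det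

/-- the `k`-th compound matrix -/
def cpd {R : Type*} [CommRing R] {n : ℕ} (k : ℕ) (T : Matrix (Fin n) (Fin n) R) :
    Matrix (Ix n k) (Ix n k) R :=
  fun I J => (T.submatrix (I.1.orderEmbOfFin I.2) (J.1.orderEmbOfFin J.2)).det

/-- B2: the Cauchy and Binet formula -/
def CBStmt : Prop :=
  ∀ (R : Type) [CommRing R] (n k : ℕ) (T : Matrix (Fin n) (Fin n) R)
    (V : Matrix (Fin n) (Fin k) R), wedge (T * V) = (cpd k T).mulVec (wedge V)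

/-- B3: the formula of Sylvester and Franke -/
def SFStmt : Prop :=
  ∀ (n k : ℕ) (_ : 1 ≤ k) (_ : k ≤ n) (T : Matrix (Fin n) (Fin n) ℝ) (_ : T.det ≠ 0),
    (cpd k T).det = T.det ^ ((n - 1).choose (k - 1))

/-- B4: successive minima and a gap -/
def GapStmt : Prop :=
  ∀ (n : ℕ) (_ : 2 ≤ n), ∃ C : ℝ, 1 ≤ C ∧
    ∀ (L Ls : Matrix (Fin n) (Fin n) ℝ) (_ : |L.det| = 1) (_ : Ls.transpose * L = 1)
      (x : Fin n → ℤ) (_ : x ≠ 0) (g : ℝ) (_ : 1 ≤ g)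
      (_ : ∀ l, C * g ^ n * |(L.mulVec (fun i => (x i : ℝ))) l| ≤ 1),
      ∃ (r : ℕ) (_ : 1 ≤ r) (_ : r < n) (G : Matrix (Fin n) (Fin n) ℤ) (lam : Fin n → ℝ),
        G.det ≠ 0 ∧ (∀ i, 0 < lam i) ∧ (∀ i j, i ≤ j → lam i ≤ lam j) ∧
        (∀ i l, |(L.mulVec (fun j => (G i j : ℝ))) l| ≤ lam i) ∧ ∏ i, lam i ≤ C ∧
        (∀ i j : Fin n, (i : ℕ) < r → r ≤ (j : ℕ) → g * lam i ≤ lam j) ∧
        ∀ i : Fin n, r ≤ (i : ℕ) → (G.updateRow i x).det = 0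

/-- B5: the hyperplane in the compound space -/
def CompStmt : Prop :=
  ∀ (n k : ℕ) (_ : 1 ≤ k) (_ : k < n) (C0 : ℝ) (_ : 1 ≤ C0), ∃ C : ℝ, 1 ≤ C ∧
    ∀ (L : Matrix (Fin n) (Fin n) ℝ) (_ : |L.det| = 1) (G : Matrix (Fin n) (Fin n) ℤ)
      (lam : Fin n → ℝ) (_ : G.det ≠ 0) (_ : ∀ i, 0 < lam i)
      (_ : ∀ i j, i ≤ j → lam i ≤ lam j)
      (_ : ∀ i l, |(L.mulVec (fun j => (G i j : ℝ))) l| ≤ lam i) (_ : ∏ i, lam i ≤ C0)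
      (g : ℝ) (_ : C < g)
      (_ : ∀ i j : Fin n, (i : ℕ) < n - k → n - k ≤ (j : ℕ) → g * lam i ≤ lam j)
      (κ3 : ℝ) (_ : 0 < κ3)
      (_ : ∀ w : Ix n k → ℤ, w ≠ 0 → ∃ I, κ3 ≤ |((cpd k L).mulVec (fun J => (w J : ℝ))) I|),
      ∃ (A : Ix n k → ℝ) (y : Ix n k → ℤ) (w : Fin (n.choose k - 1) → Ix n k → ℤ),
        (∀ I, κ3 ≤ A I) ∧ ∏ I, A I ≤ C / g ∧ y ≠ 0 ∧ LinearIndependent ℤ w ∧
        (∀ i, ∑ I, y I * w i I = 0) ∧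
        (∀ i I, |((cpd k L).mulVec (fun J => (w i J : ℝ))) I| ≤ A I) ∧
        ∀ (V : Matrix (Fin n) (Fin k) ℤ) (c0 : Fin k),
          (∀ i : Fin n, n - k ≤ (i : ℕ) → (G.updateRow i (fun l => V l c0)).det = 0) →
          ∑ I, y I * wedge V I = 0

/-- B6: from a solution to a hyperplane in a compound space -/
def RedStmt : Prop :=
  ∀ (n s : ℕ) (_ : 2 ≤ n) (M0 : Matrix (Fin n) (Fin n) ℤ) (M : Fin s → Matrix (Fin n) (Fin n) ℤ)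
    (b : Fin s → ℕ) (_ : Places M0 M b) (c γ : ℝ) (_ : 1 ≤ c) (_ : 0 < γ),
    ∃ c' γ' N1 : ℝ, 1 ≤ c' ∧ 0 < γ' ∧ ∀ N : ℝ, N1 ≤ N → ∀ (e : Fin s → Fin n → ℕ)
      (A : Fin n → ℝ) (_ : Size b c γ N e A) (x : Fin n → ℤ) (_ : x ≠ 0)
      (_ : Sol M0 M b e A x),
      ∃ (k : ℕ) (_ : 1 ≤ k) (_ : k < n) (e' : Fin s → Ix n k → ℕ) (A' : Ix n k → ℝ)
        (w : Fin (n.choose k - 1) → Ix n k → ℤ) (y : Ix n k → ℤ),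
        Size b c' γ' N e' A' ∧ LinearIndependent ℤ w ∧
        (∀ i, Sol (cpd k M0) (fun v => cpd k (M v)) b e' A' (w i)) ∧ y ≠ 0 ∧
        (∀ i, ∑ I, y I * w i I = 0) ∧
        ∀ V : Matrix (Fin n) (Fin k) ℤ, (∃ c0, ∀ l, V l c0 = x l) → ∑ I, y I * wedge V I = 0

/-! ### Part C: clusters of approximants with denominators `p^m q^n` -/

/-- `B` indexes a basis of the dual of `K` -/
def Cob {k : ℕ} (K : Submodule ℚ (Fin k → ℚ)) (B : Finset (Fin k)) : Prop :=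
  B.card = Module.finrank ℚ K ∧ ∀ c ∈ K, (∀ i ∈ B, c i = 0) → c = 0

/-- C1: linear algebra of relations -/
def LDStmt : Prop :=
  ∀ (k : ℕ) (K : Submodule ℚ (Fin k → ℚ)) (ξ η χ : Fin k → ℝ) (_ : ∀ i, ξ i + η i < χ i)
    (_ : ∀ i j, i ≠ j → min (χ i) (χ j) ≤ max (ξ i) (ξ j) + max (η i) (η j))
    (_ : ∀ c ∈ K, ∀ i, c i ≠ 0 → ∃ j, j ≠ i ∧ c j ≠ 0 ∧ ξ i ≤ ξ j),
    ∃ Bh Bx By : Finset (Fin k), Cob K Bh ∧ Cob K Bx ∧ Cob K By ∧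
      ∑ i ∈ Bh, χ i ≤ ∑ i ∈ Bx, ξ i + ∑ i ∈ By, η i

/-- C2: the cluster inequality -/
def ClusterStmt (p q : ℕ) : Prop :=
  ∀ (k : ℕ) (η : ℝ) (_ : 0 < η), ∃ N0 : ℝ, ∀ N : ℝ, N0 ≤ N → ∀ θ : ℝ, 1 ≤ θ → θ < 2 →
    ∀ (a : Fin k → ℤ) (m n : Fin k → ℕ) (h : Fin k → ℝ)
      (_ : ∀ i, m i = 0 ∨ ¬ (p : ℤ) ∣ a i) (_ : ∀ i, h i ≤ N)
      (_ : ∀ i, |θ - (a i : ℝ) / ((p : ℝ) ^ (m i) * (q : ℝ) ^ (n i))| ≤ Real.exp (-(h i)))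
      (_ : ∀ i, (m i : ℝ) * Real.log p + (n i : ℝ) * Real.log q + η * N ≤ h i)
      (_ : ∀ i j, i ≠ j → (a i : ℝ) / ((p : ℝ) ^ (m i) * (q : ℝ) ^ (n i)) ≠
        (a j : ℝ) / ((p : ℝ) ^ (m j) * (q : ℝ) ^ (n j))),
      ∑ i, (h i - (m i : ℝ) * Real.log p - (n i : ℝ) * Real.log q) ≤ 2 * N

/-! ### Part D: combinatorics of the triangles -/

/-- the cell `(i, j)` lies in the triangle with corner `(m, n)` and level `h` -/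
def InT (l u : ℝ) (m n : ℕ) (h : ℝ) (i j : ℕ) : Prop :=
  m ≤ i ∧ n ≤ j ∧ (i : ℝ) * l + (j : ℝ) * u < h

open Classical in
/-- D1: disjoint triangles of bounded total size to the left of a wall leave a positive
proportion uncovered -/
def CombStmt : Prop :=
  ∀ (l u K : ℝ) (_ : 0 < l) (_ : 0 < u), ∃ c : ℝ, 0 < c ∧ ∃ R0 : ℕ, ∀ (R C : ℕ) (_ : R0 ≤ R)
    (_ : (R : ℝ) * u ≤ C * l) (_ : (C : ℝ) * l ≤ R * u + l)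
    (κ : ℕ) (m n : Fin κ → ℕ) (h : Fin κ → ℝ)
    (_ : ∀ z, (m z : ℝ) * l + (n z : ℝ) * u < h z)
    (_ : ∀ z z', z ≠ z' → ∀ i j : ℕ, j < R →
      ¬ (InT l u (m z) (n z) (h z) i j ∧ InT l u (m z') (n z') (h z') i j))
    (_ : ∀ z, ∀ i j : ℕ, InT l u (m z) (n z) (h z) i j → j < R → i < C)
    (_ : ∑ z, ((h z - (m z : ℝ) * l - (n z : ℝ) * u) / u + 1) ≤ K * R),
    c * (R : ℝ) ^ 2 ≤ (((range C ×ˢ range R).filter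
      (fun x => ∀ z, ¬ InT l u (m z) (n z) (h z) x.1 x.2)).card : ℝ)

/-- the cell `(i, j)` is far: `θ p^i q^j` is at distance at least `r` from the integers -/
def Far (p q : ℕ) (r θ : ℝ) (i j : ℕ) : Prop := r ≤ dZ (θ * (p : ℝ) ^ i * (q : ℝ) ^ j)

open Classical in
/-- D2: the window to the left of a wall of far cells -/
def WallStmt (p q : ℕ) (r : ℝ) : Prop :=
  ∃ c1 : ℝ, 0 < c1 ∧ ∀ η : ℝ, 0 < η → ∃ R0 : ℕ, ∀ (R C : ℕ) (_ : R0 ≤ R)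
    (_ : (R : ℝ) * Real.log q ≤ C * Real.log p)
    (_ : (C : ℝ) * Real.log p ≤ R * Real.log q + Real.log p)
    (θ : ℝ) (_ : ∀ j : ℕ, j < R → Far p q r θ C j),
    c1 * (R : ℝ) ^ 2 ≤ (((range C ×ˢ range R).filter
      (fun x => ∃ i' : ℕ, i' ≤ x.1 ∧ (x.1 : ℝ) ≤ i' + η * R ∧ Far p q r θ i' x.2)).card : ℝ)

open Classical in
/-- D3: the window with a far origin: many far cells, or a long wall -/
def OpenStmt (p q : ℕ) (r : ℝ) : Prop :=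
  ∃ c0 : ℝ, 0 < c0 ∧ ∃ c1 : ℝ, 0 < c1 ∧ ∀ η : ℝ, 0 < η → ∃ R0 : ℕ, ∀ (R C : ℕ) (_ : R0 ≤ R)
    (_ : (R : ℝ) * Real.log q ≤ C * Real.log p)
    (_ : (C : ℝ) * Real.log p ≤ R * Real.log q + Real.log p)
    (θ : ℝ) (_ : r ≤ dZ θ),
    (c1 * (R : ℝ) ^ 2 ≤ (((range C ×ˢ range R).filter
      (fun x => ∃ i' : ℕ, i' ≤ x.1 ∧ (x.1 : ℝ) ≤ i' + η * R ∧ Far p q r θ i' x.2)).card : ℝ)) ∨
    (∃ a b : ℕ, a < C ∧ b ≤ R ∧ ∀ j : ℕ, b ≤ j → (j : ℝ) ≤ b + c0 * R → Far p q r θ a j) ∨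
    (∃ a b : ℕ, a ≤ C ∧ b < R ∧ ∀ i : ℕ, a ≤ i → (i : ℝ) ≤ a + c0 * R → Far p q r θ i b)

/-- D4: many separated far points around a far point -/
def StepStmt (p q : ℕ) (r : ℝ) : Prop :=
  ∃ c4 : ℝ, 0 < c4 ∧ ∃ C5 : ℝ, 0 < C5 ∧ ∀ η : ℝ, 0 < η → η < 1 → ∃ L0 : ℝ, ∀ L : ℝ, L0 ≤ L →
    ∀ θ : ℝ, r ≤ dZ θ → ∃ S : Finset (ℤ × ℤ), c4 / η ^ 2 ≤ (S.card : ℝ) ∧
      (∀ c ∈ S, r ≤ dZ (X p q θ c) ∧ |(c.1 : ℝ)| * Real.log p ≤ C5 * L ∧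
        |(c.2 : ℝ)| * Real.log q ≤ C5 * L) ∧
      ∀ c ∈ S, ∀ c' ∈ S, c ≠ c' → 2 * η * L < |(c.1 : ℝ) - c'.1| * Real.log p ∨
        2 * η * L < |(c.2 : ℝ) - c'.2| * Real.log q

end Pool.Agent.TH461.SST
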