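import Mathlib
import Pool.Agent.H9.Lib.R_seed8.TH461.SST.Stms

set_option autoImplicit false

open Finset Filter Topology

namespace Pool.Agent.TH461.SST.Dich

open Pool.Agent.TH461.SST

/-- the signed maximal minors of `n'` vectors with `n' + 1` coordinates -/
def Dl {n' : ℕ} (w : Fin n' → Fin (n' + 1) → ℤ) (j : Fin (n' + 1)) : ℤ :=
  (-1) ^ (j : ℕ) * (Matrix.of (fun i k => w i (j.succAbove k)) : Matrix (Fin n') (Fin n') ℤ).det

/-- the matrix with the rows `u`, `w` -/
def Mx {n' : ℕ} (u : Fin (n' + 1) → ℤ) (w : Fin n' → Fin (n' + 1) → ℤ) :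
    Matrix (Fin (n' + 1)) (Fin (n' + 1)) ℤ :=
  Matrix.of (Fin.cons u w : Fin (n' + 1) → Fin (n' + 1) → ℤ)

theorem det_Mx {n' : ℕ} (u : Fin (n' + 1) → ℤ) (w : Fin n' → Fin (n' + 1) → ℤ) :
    (Mx u w).det = ∑ j, u j * Dl w j := by
  rw [Matrix.det_succ_row_zero]
  refine Finset.sum_congr rfl fun j _ => ?_
  have h1 : (Mx u w) 0 j = u j := rfl
  have h2 : (Mx u w).submatrix Fin.succ j.succAbove =
      Matrix.of (fun i k => w i (j.succAbove k)) := by
    ext i k
    rfl
  rw [h1, h2]
  unfold Dl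
  ring

theorem Mx_mul {n' : ℕ} (M : Matrix (Fin (n' + 1)) (Fin (n' + 1)) ℤ) (u : Fin (n' + 1) → ℤ)
    (w : Fin n' → Fin (n' + 1) → ℤ) :
    Mx (M.mulVec u) (fun i => M.mulVec (w i)) = Mx u w * M.transpose := by
  ext a b
  rw [Matrix.mul_apply]
  refine Fin.cases ?_ (fun i => ?_) a
  · change (M.mulVec u) b = ∑ k, u k * M b k
    unfold Matrix.mulVec dotProduct
    exact Finset.sum_congr rfl fun k _ => mul_comm _ _
  · change (M.mulVec (w i)) b = ∑ k, w i k * M b k
    unfold Matrix.mulVec dotProduct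
    exact Finset.sum_congr rfl fun k _ => mul_comm _ _

theorem Dl_mul {n' : ℕ} (M : Matrix (Fin (n' + 1)) (Fin (n' + 1)) ℤ) (hM : M.det ≠ 0)
    (w : Fin n' → Fin (n' + 1) → ℤ) (l : Fin (n' + 1)) :
    Dl (fun i => M.mulVec (w i)) l = ∑ k, Dl w k * M.adjugate k l := by
  have h := congrArg Matrix.det (Mx_mul M (fun k => M.adjugate k l) w)
  rw [Matrix.det_mul, Matrix.det_transpose, det_Mx, det_Mx] at h
  have h1 : ∀ j, M.mulVec (fun k => M.adjugate k l) j = if j = l then M.det else 0 := by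
    intro j
    have h2 : M.mulVec (fun k => M.adjugate k l) j = (M * M.adjugate) j l := rfl
    rw [h2, Matrix.mul_adjugate, Matrix.smul_apply, Matrix.one_apply]
    split_ifs <;> simp
  simp only [h1, ite_mul, zero_mul, Finset.sum_ite_eq', Finset.mem_univ, if_true] at h
  apply mul_left_cancel₀ hM
  rw [h, mul_comm]
  congr 1
  exact Finset.sum_congr rfl fun k _ => mul_comm _ _

theorem dot_adj {n : ℕ} (M : Matrix (Fin n) (Fin n) ℤ) (y x : Fin n → ℤ) :
    M.det * ∑ l, y l * x l =
      ∑ l, (∑ k, y k * M.adjugate k l) * (∑ j, M l j * x j) := by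
  have h1 : ∀ k, ∑ l, M.adjugate k l * (∑ j, M l j * x j) = M.det * x k := by
    intro k
    have h2 : ∑ l, M.adjugate k l * (∑ j, M l j * x j) =
        (M.adjugate.mulVec (M.mulVec x)) k := rfl
    rw [h2, Matrix.mulVec_mulVec, Matrix.adjugate_mul, Matrix.smul_mulVec, Matrix.one_mulVec]
    rfl
  calc M.det * ∑ l, y l * x l = ∑ k, y k * (M.det * x k) := by
        rw [Finset.mul_sum]
        exact Finset.sum_congr rfl fun k _ => by ring
    _ = ∑ k, y k * ∑ l, M.adjugate k l * (∑ j, M l j * x j) :=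
        Finset.sum_congr rfl fun k _ => by rw [h1]
    _ = ∑ k, ∑ l, y k * M.adjugate k l * (∑ j, M l j * x j) :=
        Finset.sum_congr rfl fun k _ => by
          rw [Finset.mul_sum]
          exact Finset.sum_congr rfl fun l _ => by ring
    _ = _ := by
        rw [Finset.sum_comm]
        exact Finset.sum_congr rfl fun l _ => by rw [Finset.sum_mul]

/-- Leibniz bound with bounds for the columns -/
theorem abs_det_le {n : ℕ} (T : Matrix (Fin n) (Fin n) ℤ) (a : Fin n → ℝ)
    (h : ∀ i k, |(T i k : ℝ)| ≤ a k) : |(T.det : ℝ)| ≤ (n.factorial : ℝ) * ∏ k, a k := by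
  rw [Matrix.det_apply, Int.cast_sum]
  refine (Finset.abs_sum_le_sum_abs _ _).trans ?_
  have h1 : ∀ σ ∈ (Finset.univ : Finset (Equiv.Perm (Fin n))),
      |(((Equiv.Perm.sign σ • ∏ i, T (σ i) i : ℤ)) : ℝ)| ≤ ∏ k, a k := by
    intro σ _
    have h2 : |(((Equiv.Perm.sign σ • ∏ i, T (σ i) i : ℤ)) : ℝ)| = ∏ i, |(T (σ i) i : ℝ)| := by
      rw [Units.smul_def, smul_eq_mul]
      push_cast
      rw [abs_mul, Finset.abs_prod]
      rcases Int.units_eq_one_or (Equiv.Perm.sign σ) with hs | hs <;> simp [hs]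
    rw [h2]
    exact Finset.prod_le_prod (fun i _ => abs_nonneg _) fun i _ => h _ _
  refine (Finset.sum_le_sum h1).trans (le_of_eq ?_)
  rw [Finset.sum_const, Finset.card_univ, Fintype.card_perm, Fintype.card_fin, nsmul_eq_mul]

/-- divisibility of a determinant by divisors of its columns -/
theorem prod_dvd_det {n : ℕ} (T : Matrix (Fin n) (Fin n) ℤ) (d : Fin n → ℤ)
    (h : ∀ i k, d k ∣ T i k) : ∏ k, d k ∣ T.det := by
  choose T' hT' using h
  have h1 : T = Matrix.of fun i j => d j * T' i j := by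
    ext i j
    exact hT' i j
  rw [h1]
  exact ⟨_, Matrix.det_mul_row d (Matrix.of T')⟩

theorem gcd_prop {ι : Type} [Fintype ι] (y y0 : ι → ℤ) (hy : y ≠ 0)
    (h0 : Finset.univ.gcd y0 = 1) (h : ∀ j k, y j * y0 k = y k * y0 j) (j : ι) :
    |(y0 j : ℝ)| ≤ |(y j : ℝ)| := by
  have h1 : Finset.univ.gcd (fun k => y j * y0 k) = normalize (y j) := by
    rw [Finset.gcd_mul_left, h0, mul_one]
  have h2 : Finset.univ.gcd (fun k => y j * y0 k) = Finset.univ.gcd y * normalize (y0 j) := by
    rw [← Finset.gcd_mul_right]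
    exact Finset.gcd_congr rfl fun k _ => h j k
  rw [h1] at h2
  rw [← Int.abs_eq_normalize, ← Int.abs_eq_normalize] at h2
  have h3 : 1 ≤ Finset.univ.gcd y := by
    have h4 : Finset.univ.gcd y ≠ 0 := by
      intro h5
      rw [Finset.gcd_eq_zero_iff] at h5
      exact hy (funext fun k => h5 k (Finset.mem_univ _))
    have h6 : 0 ≤ Finset.univ.gcd y := by
      rw [← Finset.normalize_gcd, ← Int.abs_eq_normalize]
      exact abs_nonneg _
    omega
  have h7 : |y0 j| ≤ |y j| := by
    rw [h2]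
    nlinarith [abs_nonneg (y0 j)]
  exact_mod_cast h7

/-- the vector of the minors is a multiple of a primitive vector, bounded by every orthogonal
vector -/
theorem exists_prim {n' : ℕ} (w : Fin n' → Fin (n' + 1) → ℤ) (hw : LinearIndependent ℤ w)
    (y : Fin (n' + 1) → ℤ) (hy : y ≠ 0) (hyw : ∀ i, ∑ l, y l * w i l = 0) :
    ∃ (q : ℤ) (y0 : Fin (n' + 1) → ℤ), 1 ≤ q ∧ y0 ≠ 0 ∧ (∀ k, Dl w k = q * y0 k) ∧
      ∀ l, |(y0 l : ℝ)| ≤ |(y l : ℝ)| := by
  have hyy : ∑ l, y l * y l ≠ 0 := by
    intro h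
    apply hy
    funext l
    have h1 := (Finset.sum_eq_zero_iff_of_nonneg (fun l _ => mul_self_nonneg (y l))).1 h l
      (Finset.mem_univ _)
    exact mul_self_eq_zero.1 h1
  have hdet : (Mx y w).det ≠ 0 := by
    intro h
    obtain ⟨v, hv0, hv⟩ := Matrix.exists_vecMul_eq_zero_iff.2 h
    have h1 : ∀ j, v 0 * y j + ∑ i : Fin n', v i.succ * w i j = 0 := by
      intro j
      have h2 := congrFun hv j
      have h3 : Matrix.vecMul v (Mx y w) j = ∑ a, v a * (Mx y w) a j := rfl
      rw [h3, Fin.sum_univ_succ] at h2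
      exact h2
    have h4 : v 0 * ∑ j, y j * y j = 0 := by
      have h5 : ∑ j, y j * (v 0 * y j + ∑ i : Fin n', v i.succ * w i j) = 0 :=
        Finset.sum_eq_zero fun j _ => by rw [h1, mul_zero]
      have h6 : ∑ j, y j * (v 0 * y j + ∑ i : Fin n', v i.succ * w i j) =
          v 0 * (∑ j, y j * y j) + ∑ i : Fin n', v i.succ * ∑ j, y j * w i j := by
        simp only [mul_add, Finset.sum_add_distrib, Finset.mul_sum]
        congr 1
        · exact Finset.sum_congr rfl fun j _ => by ring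
        · rw [Finset.sum_comm]
          exact Finset.sum_congr rfl fun i _ => Finset.sum_congr rfl fun j _ => by ring
      rw [h6] at h5
      simpa [hyw] using h5
    have hv00 : v 0 = 0 := (mul_eq_zero.1 h4).resolve_right hyy
    have h7 : ∑ i : Fin n', v i.succ • w i = 0 := by
      funext j
      have h8 := h1 j
      rw [hv00, zero_mul, zero_add] at h8
      rw [Finset.sum_apply]
      simpa using h8
    have h9 := Fintype.linearIndependent_iff.1 hw _ h7
    apply hv0
    funext a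
    refine Fin.cases ?_ (fun i => ?_) a
    · exact hv00
    · exact h9 i
  have hDw : ∀ i, ∑ j, w i j * Dl w j = 0 := by
    intro i
    rw [← det_Mx]
    refine Matrix.det_zero_of_row_eq (i := 0) (j := i.succ) (Fin.succ_ne_zero i).symm ?_
    rfl
  -- proportionality
  have hprop : ∀ k, (∑ l, y l * y l) * Dl w k = (∑ l, y l * Dl w l) * y k := by
    have hz : (Mx y w).mulVec (fun k => (∑ l, y l * y l) * Dl w k -
        (∑ l, y l * Dl w l) * y k) = 0 := by
      funext a
      refine Fin.cases ?_ (fun i => ?_) a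
      · change ∑ k, y k * ((∑ l, y l * y l) * Dl w k - (∑ l, y l * Dl w l) * y k) = 0
        have : ∑ k, y k * ((∑ l, y l * y l) * Dl w k - (∑ l, y l * Dl w l) * y k) =
            (∑ l, y l * y l) * (∑ k, y k * Dl w k) - (∑ l, y l * Dl w l) * ∑ k, y k * y k := by
          rw [Finset.mul_sum (s := Finset.univ) (a := ∑ l, y l * y l),
            Finset.mul_sum (s := Finset.univ) (a := ∑ l, y l * Dl w l), ← Finset.sum_sub_distrib]
          exact Finset.sum_congr rfl fun k _ => by ring
        rw [this]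
        ring
      · change ∑ k, w i k * ((∑ l, y l * y l) * Dl w k - (∑ l, y l * Dl w l) * y k) = 0
        have : ∑ k, w i k * ((∑ l, y l * y l) * Dl w k - (∑ l, y l * Dl w l) * y k) =
            (∑ l, y l * y l) * (∑ k, w i k * Dl w k) -
              (∑ l, y l * Dl w l) * ∑ k, y k * w i k := by
          rw [Finset.mul_sum (s := Finset.univ) (a := ∑ l, y l * y l),
            Finset.mul_sum (s := Finset.univ) (a := ∑ l, y l * Dl w l), ← Finset.sum_sub_distrib]
          exact Finset.sum_congr rfl fun k _ => by ring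
        rw [this, hDw, hyw]
        ring
    have h1 := Matrix.eq_zero_of_mulVec_eq_zero hdet hz
    intro k
    have h2 := congrFun h1 k
    simp only [Pi.zero_apply] at h2
    linarith
  have hDl0 : ∑ l, y l * Dl w l ≠ 0 := by rwa [← det_Mx]
  obtain ⟨y0, hy0, hg⟩ := Finset.extract_gcd (Dl w) (Finset.univ_nonempty (α := Fin (n' + 1)))
  set q := Finset.univ.gcd (Dl w) with hq
  have hq0 : q ≠ 0 := by
    intro h
    apply hDl0
    refine Finset.sum_eq_zero fun l _ => ?_
    rw [hy0 l (Finset.mem_univ _), h]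
    ring
  have hq1 : 1 ≤ q := by
    have h6 : 0 ≤ q := by
      rw [hq, ← Finset.normalize_gcd, ← Int.abs_eq_normalize]
      exact abs_nonneg _
    omega
  refine ⟨q, y0, hq1, ?_, fun k => hy0 k (Finset.mem_univ _), ?_⟩
  · rintro rfl
    apply hDl0
    refine Finset.sum_eq_zero fun l _ => ?_
    rw [hy0 l (Finset.mem_univ _)]
    simp
  · intro l
    refine gcd_prop y y0 hy hg ?_ l
    intro j k
    have h1 := hprop j
    have h2 := hprop k
    rw [hy0 j (Finset.mem_univ _)] at h1
    rw [hy0 k (Finset.mem_univ _)] at h2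
    -- (yy) q y0_j = D y_j
    have h3 : (∑ l, y l * Dl w l) * (y j * y0 k) = (∑ l, y l * Dl w l) * (y k * y0 j) := by
      calc (∑ l, y l * Dl w l) * (y j * y0 k) = ((∑ l, y l * Dl w l) * y j) * y0 k := by ring
        _ = ((∑ l, y l * y l) * (q * y0 j)) * y0 k := by rw [h1]
        _ = ((∑ l, y l * y l) * (q * y0 k)) * y0 j := by ring
        _ = ((∑ l, y l * Dl w l) * y k) * y0 j := by rw [h2]
        _ = _ := by ring
    exact mul_left_cancel₀ hDl0 h3

/-- the vector `adj(M)ᵀ y` -/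
def cv {n : ℕ} (M : Matrix (Fin n) (Fin n) ℤ) (y : Fin n → ℤ) (l : Fin n) : ℤ :=
  ∑ k, y k * M.adjugate k l

/-- pattern of a vector -/
def pat {n s : ℕ} (M0 : Matrix (Fin n) (Fin n) ℤ)
    (M : Fin s → Matrix (Fin n) (Fin n) ℤ) (y : Fin n → ℤ) :
    Finset (Fin n) × (Fin s → Finset (Fin n)) :=
  (Finset.univ.filter (fun l => cv M0 y l ≠ 0),
    fun v => Finset.univ.filter (fun l => cv (M v) y l ≠ 0))

theorem dich : DichStmt := by
  classical
  intro n' s M0 M b hP γ hγ
  obtain ⟨hM0, hM, hb, hcop⟩ := hP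
  -- the finite set
  let sel : Finset (Fin (n' + 1)) × (Fin s → Finset (Fin (n' + 1))) → (Fin (n' + 1) → ℤ) :=
    fun S => if h : ∃ y : Fin (n' + 1) → ℤ, y ≠ 0 ∧ pat M0 M y = S then h.choose else fun _ => 1
  have hsel0 : ∀ S, sel S ≠ 0 := by
    intro S
    by_cases h : ∃ y : Fin (n' + 1) → ℤ, y ≠ 0 ∧ pat M0 M y = S
    · simp only [sel]
      rw [dif_pos h]
      exact h.choose_spec.1
    · simp only [sel]
      rw [dif_neg h]
      intro h1
      have := congrFun h1 0
      simp at this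
  have hselp : ∀ y : Fin (n' + 1) → ℤ, y ≠ 0 → pat M0 M (sel (pat M0 M y)) = pat M0 M y := by
    intro y hy
    have h : ∃ y' : Fin (n' + 1) → ℤ, y' ≠ 0 ∧ pat M0 M y' = pat M0 M y := ⟨y, hy, rfl⟩
    simp only [sel]
    rw [dif_pos h]
    exact h.choose_spec.2
  -- constants
  set Ca : ℝ := 1 + ∑ v, ∑ l, ∑ k, |(((M v).adjugate k l : ℤ) : ℝ)| with hCa
  set C3 : ℝ := 1 + ∑ S : Finset (Fin (n' + 1)) × (Fin s → Finset (Fin (n' + 1))),
    ∑ l, |(cv M0 (sel S) l : ℝ)| with hC3
  set Dp : ℝ := ∏ v, |((M v).det : ℝ)| with hDp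
  set K : ℝ := Real.log Dp + Real.log C3 + Real.log (n'.factorial : ℝ) + s * Real.log Ca with hK
  have hCa1 : 1 ≤ Ca := by
    rw [hCa]
    have : 0 ≤ ∑ v, ∑ l, ∑ k, |(((M v).adjugate k l : ℤ) : ℝ)| :=
      Finset.sum_nonneg fun v _ => Finset.sum_nonneg fun l _ => Finset.sum_nonneg fun k _ =>
        abs_nonneg _
    linarith
  have hC31 : 1 ≤ C3 := by
    rw [hC3]
    have : 0 ≤ ∑ S : Finset (Fin (n' + 1)) × (Fin s → Finset (Fin (n' + 1))),
        ∑ l, |(cv M0 (sel S) l : ℝ)| :=
      Finset.sum_nonneg fun v _ => Finset.sum_nonneg fun l _ => abs_nonneg _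
    linarith
  have hDppos : 0 < Dp := by
    rw [hDp]
    refine Finset.prod_pos fun v _ => abs_pos.2 ?_
    exact_mod_cast hM v
  have hs0 : (0 : ℝ) < 2 * (s + 1) := by positivity
  refine ⟨γ / (2 * (s + 1)), by positivity, Finset.univ.image sel, ?_, 2 * |K| / γ + 1, ?_⟩
  · intro y hy
    obtain ⟨S, -, rfl⟩ := Finset.mem_image.1 hy
    exact hsel0 S
  intro c N hN e A hSize w hw hSol y hy hyw hyN
  obtain ⟨-, hApos, -, hsum⟩ := hSize
  have hNpos : 0 < N := by
    have : 0 ≤ 2 * |K| / γ := by positivity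
    linarith
  obtain ⟨q, y0, hq1, hy00, hDl, hy0le⟩ := exists_prim w hw y hy hyw
  refine ⟨sel (pat M0 M y0), Finset.mem_image_of_mem _ (Finset.mem_univ _), ?_⟩
  set y' := sel (pat M0 M y0) with hy'
  have hpat := hselp y0 hy00
  rw [← hy'] at hpat
  have hpat0 : ∀ l, cv M0 y' l ≠ 0 ↔ cv M0 y0 l ≠ 0 := by
    intro l
    have h1 := congrArg Prod.fst hpat
    simp only [pat] at h1
    have h2 := Finset.ext_iff.1 h1 l
    simpa using h2
  have hpatv : ∀ v l, cv (M v) y' l ≠ 0 ↔ cv (M v) y0 l ≠ 0 := by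
    intro v l
    have h1 := congrFun (congrArg Prod.snd hpat) v
    simp only [pat] at h1
    have h2 := Finset.ext_iff.1 h1 l
    simpa using h2
  intro i0
  by_contra hz
  set z : ℤ := ∑ l, y' l * w i0 l with hzdef
  -- minors
  have hmin : ∀ (T : Matrix (Fin (n' + 1)) (Fin (n' + 1)) ℤ), T.det ≠ 0 → ∀ l,
      Dl (fun i => T.mulVec (w i)) l = q * cv T y0 l := by
    intro T hT l
    rw [Dl_mul T hT w l]
    unfold cv
    rw [Finset.mul_sum]
    exact Finset.sum_congr rfl fun k _ => by rw [hDl]; ring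
  -- real place
  have hreal : ∀ l, cv M0 y0 l ≠ 0 → Real.log q ≤ Real.log (n'.factorial : ℝ) +
      ∑ k, Real.log (A (l.succAbove k)) := by
    intro l hl
    have h1 := hmin M0 hM0 l
    have h2 : |(Dl (fun i => M0.mulVec (w i)) l : ℝ)| ≤
        (n'.factorial : ℝ) * ∏ k, A (l.succAbove k) := by
      unfold Dl
      rw [Int.cast_mul, Int.cast_pow, Int.cast_neg, Int.cast_one, abs_mul, abs_pow, abs_neg,
        abs_one, one_pow, one_mul]
      refine abs_det_le _ _ ?_
      intro i k
      exact (hSol i).1 (l.succAbove k)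
    have h3 : (q : ℝ) ≤ |(Dl (fun i => M0.mulVec (w i)) l : ℝ)| := by
      rw [h1]
      have h4 : q ≤ |q * cv M0 y0 l| := by
        rw [abs_mul, abs_of_pos (by omega : (0 : ℤ) < q)]
        have := Int.one_le_abs hl
        nlinarith
      exact_mod_cast h4
    have hqpos : (0 : ℝ) < q := by exact_mod_cast (by omega : (0 : ℤ) < q)
    have hfpos : (0 : ℝ) < (n'.factorial : ℝ) := by exact_mod_cast Nat.factorial_pos n'
    have hprodpos : 0 < ∏ k, A (l.succAbove k) := Finset.prod_pos fun k _ => hApos _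
    calc Real.log q ≤ Real.log ((n'.factorial : ℝ) * ∏ k, A (l.succAbove k)) :=
          Real.log_le_log hqpos (h3.trans h2)
      _ = _ := by
          rw [Real.log_mul hfpos.ne' hprodpos.ne', Real.log_prod fun k _ => (hApos _).ne']
  -- choice of the indices at the places
  have hch : ∀ v, ∃ l, cv (M v) y0 l ≠ 0 ∧ ∀ l', cv (M v) y0 l' ≠ 0 → e v l ≤ e v l' := by
    intro v
    have hne : (Finset.univ.filter (fun l => cv (M v) y0 l ≠ 0)).Nonempty := by
      by_contra hempty
      rw [Finset.not_nonempty_iff_eq_empty] at hempty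
      have h0 : ∀ l, cv (M v) y' l = 0 := by
        intro l
        by_contra h1
        have h2 := (hpatv v l).1 h1
        have h3 : l ∈ Finset.univ.filter (fun l => cv (M v) y0 l ≠ 0) := by simp [h2]
        rw [hempty] at h3
        simp at h3
      have h4 := dot_adj (M v) y' (w i0)
      have h5 : ∑ l, (∑ k, y' k * (M v).adjugate k l) * (∑ j, M v l j * w i0 j) = 0 := by
        refine Finset.sum_eq_zero fun l _ => ?_
        have := h0 l
        unfold cv at this
        rw [this, zero_mul]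
      rw [h5] at h4
      exact hz ((mul_eq_zero.1 h4).resolve_left (hM v))
    obtain ⟨l, hl, hmin'⟩ := Finset.exists_min_image _ (fun l => e v l) hne
    refine ⟨l, by simpa using hl, fun l' hl' => hmin' l' (by simp [hl'])⟩
  choose lv hlv hlvmin using hch
  have hne0 : (Finset.univ.filter (fun l => cv M0 y0 l ≠ 0)).Nonempty := by
    by_contra hempty
    rw [Finset.not_nonempty_iff_eq_empty] at hempty
    have h0 : ∀ l, cv M0 y' l = 0 := by
      intro l
      by_contra h1
      have h2 := (hpat0 l).1 h1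
      have h3 : l ∈ Finset.univ.filter (fun l => cv M0 y0 l ≠ 0) := by simp [h2]
      rw [hempty] at h3
      simp at h3
    have h4 := dot_adj M0 y' (w i0)
    have h5 : ∑ l, (∑ k, y' k * M0.adjugate k l) * (∑ j, M0 l j * w i0 j) = 0 := by
      refine Finset.sum_eq_zero fun l _ => ?_
      have := h0 l
      unfold cv at this
      rw [this, zero_mul]
    rw [h5] at h4
    exact hz ((mul_eq_zero.1 h4).resolve_left hM0)
  obtain ⟨ls, hls, hlsmax⟩ := Finset.exists_max_image _ (fun l => A l) hne0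
  have hls0 : cv M0 y0 ls ≠ 0 := by simpa using hls
  -- lower bound for `q`
  have hbne : ∀ v, (0 : ℝ) < b v := fun v => by
    have := hb v
    exact_mod_cast (by omega : 0 < b v)
  have hlow : ∑ v, ((∑ k, e v ((lv v).succAbove k) : ℕ) : ℝ) * Real.log (b v) ≤
      Real.log q + s * (Real.log Ca + γ / (2 * (s + 1)) * N) := by
    have hdvd : ∏ v, (b v : ℤ) ^ (∑ k, e v ((lv v).succAbove k)) ∣
        q * ∏ v, cv (M v) y0 (lv v) := by
      refine Finset.prod_dvd_of_coprime ?_ ?_
      · intro v _ v' _ hvv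
        refine IsCoprime.pow ?_
        exact Nat.isCoprime_iff_coprime.2 (hcop v v' hvv)
      · intro v _
        have h1 : (b v : ℤ) ^ (∑ k, e v ((lv v).succAbove k)) ∣ q * cv (M v) y0 (lv v) := by
          rw [← hmin (M v) (hM v) (lv v), ← Finset.prod_pow_eq_pow_sum]
          unfold Dl
          refine Dvd.dvd.mul_left ?_ _
          refine prod_dvd_det _ _ ?_
          intro i k
          exact (hSol i).2 v ((lv v).succAbove k)
        refine h1.trans (mul_dvd_mul_left q ?_)
        exact Finset.dvd_prod_of_mem (fun v => cv (M v) y0 (lv v)) (Finset.mem_univ v)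
    have hne : q * ∏ v, cv (M v) y0 (lv v) ≠ 0 :=
      mul_ne_zero (by omega) (Finset.prod_ne_zero_iff.2 fun v _ => hlv v)
    have h2 := Int.le_of_dvd (abs_pos.2 hne) ((dvd_abs _ _).2 hdvd)
    have h3 : ∏ v, (b v : ℝ) ^ (∑ k, e v ((lv v).succAbove k)) ≤
        (q : ℝ) * ∏ v, |(cv (M v) y0 (lv v) : ℝ)| := by
      have h4 : ((∏ v, (b v : ℤ) ^ (∑ k, e v ((lv v).succAbove k)) : ℤ) : ℝ) ≤
          ((|q * ∏ v, cv (M v) y0 (lv v)| : ℤ) : ℝ) := by exact_mod_cast h2
      push_cast at h4
      rw [abs_mul, Finset.abs_prod, abs_of_pos (show (0 : ℝ) < (q : ℝ) by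
        exact_mod_cast (by omega : (0 : ℤ) < q))] at h4
      exact h4
    have hqpos : (0 : ℝ) < q := by exact_mod_cast (by omega : (0 : ℤ) < q)
    have hcpos : ∀ v, 0 < |(cv (M v) y0 (lv v) : ℝ)| := fun v =>
      abs_pos.2 (by exact_mod_cast hlv v)
    have h5 := Real.log_le_log (Finset.prod_pos fun v _ => pow_pos (hbne v) _) h3
    rw [Real.log_mul hqpos.ne' (Finset.prod_pos fun v _ => hcpos v).ne',
      Real.log_prod fun v _ => (hcpos v).ne',
      Real.log_prod fun v _ => (pow_pos (hbne v) _).ne'] at h5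
    simp only [Real.log_pow] at h5
    refine h5.trans ?_
    have h6 : ∀ v ∈ (Finset.univ : Finset (Fin s)), Real.log |(cv (M v) y0 (lv v) : ℝ)| ≤
        Real.log Ca + γ / (2 * (s + 1)) * N := by
      intro v _
      have h7 : |(cv (M v) y0 (lv v) : ℝ)| ≤ Ca * Real.exp (γ / (2 * (s + 1)) * N) := by
        unfold cv
        push_cast
        refine (Finset.abs_sum_le_sum_abs _ _).trans ?_
        have h8 : ∀ k ∈ (Finset.univ : Finset (Fin (n' + 1))),
            |(y0 k : ℝ) * (((M v).adjugate k (lv v) : ℤ) : ℝ)| ≤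
              |(((M v).adjugate k (lv v) : ℤ) : ℝ)| * Real.exp (γ / (2 * (s + 1)) * N) := by
          intro k _
          rw [abs_mul, mul_comm]
          exact mul_le_mul_of_nonneg_left ((hy0le k).trans (hyN k)) (abs_nonneg _)
        refine (Finset.sum_le_sum h8).trans ?_
        rw [← Finset.sum_mul]
        refine mul_le_mul_of_nonneg_right ?_ (Real.exp_pos _).le
        rw [hCa]
        have h9 : ∑ k, |(((M v).adjugate k (lv v) : ℤ) : ℝ)| ≤
            ∑ l, ∑ k, |(((M v).adjugate k l : ℤ) : ℝ)| :=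
          Finset.single_le_sum (f := fun l => ∑ k, |(((M v).adjugate k l : ℤ) : ℝ)|)
            (fun l _ => Finset.sum_nonneg fun k _ => abs_nonneg _) (Finset.mem_univ (lv v))
        have h10 : ∑ l, ∑ k, |(((M v).adjugate k l : ℤ) : ℝ)| ≤
            ∑ v, ∑ l, ∑ k, |(((M v).adjugate k l : ℤ) : ℝ)| :=
          Finset.single_le_sum (f := fun v => ∑ l, ∑ k, |(((M v).adjugate k l : ℤ) : ℝ)|)
            (fun v _ => Finset.sum_nonneg fun l _ => Finset.sum_nonneg fun k _ => abs_nonneg _)
            (Finset.mem_univ v)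
        linarith
      calc Real.log |(cv (M v) y0 (lv v) : ℝ)|
          ≤ Real.log (Ca * Real.exp (γ / (2 * (s + 1)) * N)) := Real.log_le_log (hcpos v) h7
        _ = _ := by
            rw [Real.log_mul (by linarith) (Real.exp_pos _).ne', Real.log_exp]
    have h11 := Finset.sum_le_card_nsmul _ _ _ h6
    rw [Finset.card_univ, Fintype.card_fin, nsmul_eq_mul] at h11
    linarith
  -- the product with `y'`
  have hup : ∑ v, (e v (lv v) : ℝ) * Real.log (b v) ≤
      Real.log Dp + Real.log C3 + Real.log (A ls) := by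
    have hdvd : ∏ v, (b v : ℤ) ^ (e v (lv v)) ∣ (∏ v, (M v).det) * z := by
      refine Finset.prod_dvd_of_coprime ?_ ?_
      · intro v _ v' _ hvv
        refine IsCoprime.pow ?_
        exact Nat.isCoprime_iff_coprime.2 (hcop v v' hvv)
      · intro v _
        have h1 : (b v : ℤ) ^ (e v (lv v)) ∣ (M v).det * z := by
          rw [hzdef, dot_adj]
          refine Finset.dvd_sum fun l _ => ?_
          by_cases hl : cv (M v) y' l = 0
          · unfold cv at hl
            rw [hl, zero_mul]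
            exact dvd_zero _
          · have h2 := hlvmin v l ((hpatv v l).1 hl)
            exact Dvd.dvd.mul_left ((pow_dvd_pow _ h2).trans ((hSol i0).2 v l)) _
        refine h1.trans (mul_dvd_mul_right ?_ z)
        exact Finset.dvd_prod_of_mem (fun v => (M v).det) (Finset.mem_univ v)
    have hne : (∏ v, (M v).det) * z ≠ 0 :=
      mul_ne_zero (Finset.prod_ne_zero_iff.2 fun v _ => hM v) hz
    have h2 := Int.le_of_dvd (abs_pos.2 hne) ((dvd_abs _ _).2 hdvd)
    have h3 : ∏ v, (b v : ℝ) ^ (e v (lv v)) ≤ Dp * |(z : ℝ)| := by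
      have h4 : ((∏ v, (b v : ℤ) ^ (e v (lv v)) : ℤ) : ℝ) ≤
          ((|(∏ v, (M v).det) * z| : ℤ) : ℝ) := Int.cast_le.2 h2
      rw [Int.cast_abs, Int.cast_mul, Int.cast_prod, Int.cast_prod, abs_mul,
        Finset.abs_prod] at h4
      simp only [Int.cast_pow, Int.cast_natCast] at h4
      exact h4
    have hzle : |(z : ℝ)| ≤ C3 * A ls := by
      have h5 := dot_adj M0 y' (w i0)
      have h6 : |(z : ℝ)| ≤ |((M0.det * z : ℤ) : ℝ)| := by
        rw [Int.cast_mul, abs_mul]
        have h7 : (1 : ℝ) ≤ |(M0.det : ℝ)| := by exact_mod_cast Int.one_le_abs hM0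
        nlinarith [abs_nonneg (z : ℝ)]
      refine h6.trans ?_
      rw [hzdef, h5]
      push_cast
      refine (Finset.abs_sum_le_sum_abs _ _).trans ?_
      have h8 : ∀ l ∈ (Finset.univ : Finset (Fin (n' + 1))),
          |(∑ k, (y' k : ℝ) * ((M0.adjugate k l : ℤ) : ℝ)) * (∑ j, (M0 l j : ℝ) * (w i0 j : ℝ))| ≤
            |(cv M0 y' l : ℝ)| * A ls := by
        intro l _
        have h9 : ((cv M0 y' l : ℤ) : ℝ) = ∑ k, (y' k : ℝ) * ((M0.adjugate k l : ℤ) : ℝ) := by
          unfold cv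
          push_cast
          rfl
        rw [← h9, abs_mul]
        by_cases hl : cv M0 y' l = 0
        · rw [hl]
          simp
        · refine mul_le_mul_of_nonneg_left ?_ (abs_nonneg _)
          have h10 := (hSol i0).1 l
          push_cast at h10
          refine h10.trans ?_
          exact hlsmax l (by simpa using (hpat0 l).1 hl)
      refine (Finset.sum_le_sum h8).trans ?_
      rw [← Finset.sum_mul]
      refine mul_le_mul_of_nonneg_right ?_ (hApos _).le
      rw [hC3]
      have h11 : ∑ l, |(cv M0 y' l : ℝ)| ≤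
          ∑ S : Finset (Fin (n' + 1)) × (Fin s → Finset (Fin (n' + 1))),
            ∑ l, |(cv M0 (sel S) l : ℝ)| :=
        Finset.single_le_sum (f := fun S => ∑ l, |(cv M0 (sel S) l : ℝ)|)
          (fun S _ => Finset.sum_nonneg fun l _ => abs_nonneg _)
          (Finset.mem_univ (pat M0 M y0))
      linarith
    have h12 : ∏ v, (b v : ℝ) ^ (e v (lv v)) ≤ Dp * (C3 * A ls) :=
      h3.trans (mul_le_mul_of_nonneg_left hzle hDppos.le)
    have h13 := Real.log_le_log (Finset.prod_pos fun v _ => pow_pos (hbne v) _) h12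
    rw [Real.log_mul hDppos.ne' (mul_pos (by linarith) (hApos _)).ne',
      Real.log_mul (by linarith) (hApos _).ne',
      Real.log_prod fun v _ => (pow_pos (hbne v) _).ne'] at h13
    simp only [Real.log_pow] at h13
    linarith
  -- conclusion
  have h1 := hreal ls hls0
  have h2 : ∑ l, Real.log (A l) = Real.log (A ls) + ∑ k, Real.log (A (ls.succAbove k)) :=
    Fin.sum_univ_succAbove _ ls
  have h3 : ∑ v, ∑ l, (e v l : ℝ) * Real.log (b v) =
      ∑ v, (e v (lv v) : ℝ) * Real.log (b v) +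
        ∑ v, ((∑ k, e v ((lv v).succAbove k) : ℕ) : ℝ) * Real.log (b v) := by
    rw [← Finset.sum_add_distrib]
    refine Finset.sum_congr rfl fun v _ => ?_
    rw [Fin.sum_univ_succAbove _ (lv v)]
    push_cast
    rw [Finset.sum_mul]
  have h4 : (s : ℝ) * (γ / (2 * (s + 1)) * N) ≤ γ / 2 * N := by
    have h5 : (s : ℝ) * (γ / (2 * (s + 1))) ≤ γ / 2 := by
      rw [mul_div_assoc', div_le_div_iff₀ hs0 (by norm_num)]
      nlinarith [(Nat.cast_nonneg s : (0 : ℝ) ≤ s)]
    calc (s : ℝ) * (γ / (2 * (s + 1)) * N) = (s : ℝ) * (γ / (2 * (s + 1))) * N := by ring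
      _ ≤ γ / 2 * N := mul_le_mul_of_nonneg_right h5 hNpos.le
  have h6 : γ / 2 * N ≤ K := by
    rw [hK]
    nlinarith [h1, h2, h3, h4, hlow, hup, hsum]
  have h7 : γ / 2 * (2 * |K| / γ + 1) ≤ γ / 2 * N :=
    mul_le_mul_of_nonneg_left hN (by positivity)
  have h8 : γ / 2 * (2 * |K| / γ + 1) = |K| + γ / 2 := by
    field_simp
  have h9 := le_abs_self K
  linarith

end Pool.Agent.TH461.SST.Dich
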