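import Mathlib
import Pool.Agent.H9.Lib.R_seed8.TH461.SST.Stms

set_option autoImplicit false

open Finset Filter Topology

namespace Pool.Agent.TH461.SST.Est

open Pool.Agent.TH461.SST
open Pool.Agent.H393R2 (Dset mem_Dset)

lemma le_r {m n : ℕ} {r : Fin m → ℕ} {J : Fin m → Fin n → ℕ} (hJ : J ∈ Dset m n r) (h : Fin m)
    (l : Fin n) : J h l ≤ r h := by
  rw [← mem_Dset.1 hJ h]
  exact Finset.single_le_sum (f := fun l => J h l) (fun _ _ => Nat.zero_le _) (mem_univ l)

/-- balancedness with the weights `N` -/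
lemma bal_sum {m n : ℕ} {r : Fin m → ℕ} (hr : ∀ h, 0 < r h) {τ R0 : ℝ} (hR0 : 0 ≤ R0)
    (hτ : 0 < τ)
    {N : Fin m → ℝ} (h1 : ∀ h, (1 - τ) * R0 ≤ r h * N h) (h2 : ∀ h, r h * N h ≤ R0)
    {J : Fin m → Fin n → ℕ} (hJ : J ∈ Dset m n r) (l : Fin n)
    (hb : |∑ h, (J h l : ℝ) / (r h : ℝ) - (m : ℝ) / (n : ℝ)| ≤ τ * m) :
    |∑ h, N h * (J h l : ℝ) - R0 * ((m : ℝ) / n)| ≤ 2 * τ * (m * R0) := by
  have e1 : ∑ h, N h * (J h l : ℝ) - R0 * ((m : ℝ) / n) =
      ∑ h, ((J h l : ℝ) / r h) * (r h * N h - R0) +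
        R0 * (∑ h, (J h l : ℝ) / (r h : ℝ) - (m : ℝ) / (n : ℝ)) := by
    have : ∀ h, N h * (J h l : ℝ) = ((J h l : ℝ) / r h) * (r h * N h - R0) +
        R0 * ((J h l : ℝ) / (r h : ℝ)) := by
      intro h
      have : (r h : ℝ) ≠ 0 := by exact_mod_cast (hr h).ne'
      field_simp
      ring
    rw [Finset.sum_congr rfl (fun h _ => this h), Finset.sum_add_distrib, ← Finset.mul_sum]
    ring
  rw [e1]
  refine (abs_add_le _ _).trans ?_
  have e2 : |∑ h, ((J h l : ℝ) / r h) * (r h * N h - R0)| ≤ ∑ h : Fin m, τ * R0 := by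
    refine (Finset.abs_sum_le_sum_abs _ _).trans (Finset.sum_le_sum fun h _ => ?_)
    rw [abs_mul]
    have hr' : (0 : ℝ) < r h := by exact_mod_cast hr h
    have a1 : |(J h l : ℝ) / r h| ≤ 1 := by
      rw [abs_of_nonneg (by positivity), div_le_one hr']
      exact_mod_cast le_r hJ h l
    have a2 : |(r h : ℝ) * N h - R0| ≤ τ * R0 := by
      rw [abs_le]
      have := h1 h
      have := h2 h
      have : 0 ≤ τ * R0 := by positivity
      constructor <;> nlinarith [h1 h, h2 h]
    calc _ ≤ 1 * (τ * R0) := by gcongr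
      _ = _ := by ring
  have e3 : |R0 * (∑ h, (J h l : ℝ) / (r h : ℝ) - (m : ℝ) / (n : ℝ))| ≤ R0 * (τ * m) := by
    rw [abs_mul, abs_of_nonneg hR0]
    gcongr
  rw [Finset.sum_const, Finset.card_univ, Fintype.card_fin, nsmul_eq_mul] at e2
  calc _ ≤ (m : ℝ) * (τ * R0) + R0 * (τ * m) := add_le_add e2 e3
    _ = _ := by ring

lemma sum_Nk {m : ℕ} {r : Fin m → ℕ} (hr : ∀ h, 0 < r h) {τ R0 : ℝ} (hR0 : 0 ≤ R0)
    {k : Fin m → ℕ} (hk : ∑ h, (k h : ℝ) / (r h : ℝ) < τ)
    {N : Fin m → ℝ} (h2 : ∀ h, r h * N h ≤ R0) :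
    ∑ h, N h * (k h : ℝ) ≤ τ * R0 := by
  calc ∑ h, N h * (k h : ℝ) ≤ ∑ h, R0 * ((k h : ℝ) / r h) := by
        refine Finset.sum_le_sum fun h _ => ?_
        have hr' : (0 : ℝ) < r h := by exact_mod_cast hr h
        have : N h * (k h : ℝ) = (r h * N h) * ((k h : ℝ) / r h) := by
          field_simp
        rw [this]
        gcongr
        exact h2 h
    _ = R0 * ∑ h, ((k h : ℝ) / r h) := by rw [Finset.mul_sum]
    _ ≤ R0 * τ := by gcongr
    _ = _ := by ring

lemma sum_Nr {m : ℕ} {r : Fin m → ℕ} {R0 : ℝ}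
    {N : Fin m → ℝ} (h2 : ∀ h, r h * N h ≤ R0) :
    ∑ h, N h * (r h : ℝ) ≤ m * R0 := by
  calc ∑ h, N h * (r h : ℝ) ≤ ∑ h : Fin m, R0 :=
        Finset.sum_le_sum fun h _ => by rw [mul_comm]; exact h2 h
    _ = _ := by rw [Finset.sum_const, Finset.card_univ, Fintype.card_fin, nsmul_eq_mul]

/-- one block of the divisibility sum -/
lemma block_e {n : ℕ} {c τ N L : ℝ} (hτ : 0 < τ) (hN : 0 ≤ N) (ε : Fin n → ℝ)
    (hε : ∀ l, ε l ≤ c) (e : Fin n → ℕ) (he : ∀ l, |(e l : ℝ) * L - ε l * N| ≤ τ * N)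
    (J κ : Fin n → ℕ) (hκ : ∀ l, κ l ≤ J l) :
    N * ∑ l, ε l * (J l : ℝ) - c * (N * ∑ l, (κ l : ℝ)) - τ * (N * ∑ l, (J l : ℝ)) ≤
      ∑ l, ((e l : ℝ) * ((J l - κ l : ℕ) : ℝ)) * L := by
  have : N * ∑ l, ε l * (J l : ℝ) - c * (N * ∑ l, (κ l : ℝ)) - τ * (N * ∑ l, (J l : ℝ)) =
      ∑ l, (N * (ε l * (J l : ℝ)) - c * (N * (κ l : ℝ)) - τ * (N * (J l : ℝ))) := by
    rw [Finset.sum_sub_distrib, Finset.sum_sub_distrib]
    simp only [Finset.mul_sum]
  rw [this]
  refine Finset.sum_le_sum fun l _ => ?_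
  rw [Nat.cast_sub (hκ l)]
  have h1 : (0 : ℝ) ≤ (J l : ℝ) - κ l := by
    have : (κ l : ℝ) ≤ J l := by exact_mod_cast hκ l
    linarith
  have h2 := (abs_le.1 (he l)).1
  have h3 : (ε l * N - τ * N) * ((J l : ℝ) - κ l) ≤ (e l : ℝ) * L * ((J l : ℝ) - κ l) :=
    mul_le_mul_of_nonneg_right (by linarith) h1
  have h4 : ε l * (N * (κ l : ℝ)) ≤ c * (N * (κ l : ℝ)) :=
    mul_le_mul_of_nonneg_right (hε l) (by positivity)
  have h5 : 0 ≤ τ * (N * (κ l : ℝ)) := by positivity
  nlinarith

/-- one block of the archimedean bound -/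
lemma block_A {n : ℕ} {c τ N X : ℝ} (hτ : 0 < τ) (hN : 0 ≤ N) (hX : 1 ≤ X) (α : Fin n → ℝ)
    (hα : ∀ l, |α l| ≤ c) (A : Fin n → ℝ) (hA : ∀ l, 0 < A l)
    (hlA : ∀ l, |Real.log (A l) - α l * N| ≤ τ * N)
    (J : Fin n → ℕ) (k : ℕ) :
    ∑ κ ∈ Finset.piAntidiag (Finset.univ : Finset (Fin n)) k,
      ∏ l, (((J l).choose (κ l) : ℝ) * X ^ (κ l) * (X * A l) ^ (J l - κ l)) ≤
    (2 * X) ^ (∑ l, J l) * Real.exp (N * ∑ l, α l * (J l : ℝ) + c * (N * k) +
      τ * (N * ∑ l, (J l : ℝ))) := by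
  have hX0 : 0 < X := by linarith
  set G : ℝ := X ^ (∑ l, J l) * Real.exp (N * ∑ l, α l * (J l : ℝ) + c * (N * k) +
      τ * (N * ∑ l, (J l : ℝ))) with hG
  have hG0 : 0 ≤ G := by positivity
  have key : ∀ κ ∈ Finset.piAntidiag (Finset.univ : Finset (Fin n)) k,
      ∏ l, (((J l).choose (κ l) : ℝ) * X ^ (κ l) * (X * A l) ^ (J l - κ l)) ≤
        (∏ l, ((J l).choose (κ l) : ℝ)) * G := by
    intro κ hκ
    have hκs : ∑ l, κ l = k := by simpa using hκ
    by_cases hle : ∀ l, κ l ≤ J l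
    · have e1 : ∏ l, (((J l).choose (κ l) : ℝ) * X ^ (κ l) * (X * A l) ^ (J l - κ l)) =
          (∏ l, ((J l).choose (κ l) : ℝ)) * (X ^ (∑ l, J l) * ∏ l, A l ^ (J l - κ l)) := by
        rw [← Finset.prod_pow_eq_pow_sum, ← Finset.prod_mul_distrib, ← Finset.prod_mul_distrib]
        refine Finset.prod_congr rfl fun l _ => ?_
        have : J l = κ l + (J l - κ l) := by have := hle l; omega
        rw [mul_pow]
        conv_rhs => rw [show X ^ (J l) = X ^ (κ l) * X ^ (J l - κ l) by rw [← pow_add, ← this]]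
        ring
      rw [e1]
      refine mul_le_mul_of_nonneg_left ?_ (by positivity)
      rw [hG]
      refine mul_le_mul_of_nonneg_left ?_ (by positivity)
      have e2 : ∏ l, A l ^ (J l - κ l) =
          Real.exp (∑ l, ((J l - κ l : ℕ) : ℝ) * Real.log (A l)) := by
        rw [Real.exp_sum]
        refine Finset.prod_congr rfl fun l _ => ?_
        rw [← Real.log_pow, Real.exp_log (by have := hA l; positivity)]
      rw [e2]
      apply Real.exp_le_exp.2
      have e3 : N * ∑ l, α l * (J l : ℝ) + c * (N * k) + τ * (N * ∑ l, (J l : ℝ)) =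
          ∑ l, (N * (α l * (J l : ℝ)) + c * (N * (κ l : ℝ)) + τ * (N * (J l : ℝ))) := by
        rw [Finset.sum_add_distrib, Finset.sum_add_distrib, ← hκs]
        push_cast
        simp only [Finset.mul_sum]
      rw [e3]
      refine Finset.sum_le_sum fun l _ => ?_
      rw [Nat.cast_sub (hle l)]
      have h1 : (0 : ℝ) ≤ (J l : ℝ) - κ l := by
        have : (κ l : ℝ) ≤ J l := by exact_mod_cast hle l
        linarith
      have h2 := (abs_le.1 (hlA l)).2
      have h3 : ((J l : ℝ) - κ l) * Real.log (A l) ≤ ((J l : ℝ) - κ l) * (α l * N + τ * N) :=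
        mul_le_mul_of_nonneg_left (by linarith) h1
      have h4 : -α l * (N * (κ l : ℝ)) ≤ c * (N * (κ l : ℝ)) :=
        mul_le_mul_of_nonneg_right (by have := (abs_le.1 (hα l)).1; linarith) (by positivity)
      have h5 : 0 ≤ τ * (N * (κ l : ℝ)) := by positivity
      nlinarith
    · push Not at hle
      obtain ⟨l, hl⟩ := hle
      have e1 : ∏ l, (((J l).choose (κ l) : ℝ) * X ^ (κ l) * (X * A l) ^ (J l - κ l)) = 0 :=
        Finset.prod_eq_zero (mem_univ l) (by rw [Nat.choose_eq_zero_of_lt hl]; simp)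
      rw [e1]
      positivity
  refine (Finset.sum_le_sum key).trans ?_
  rw [← Finset.sum_mul]
  have cnt : ∑ κ ∈ Finset.piAntidiag (Finset.univ : Finset (Fin n)) k,
      (∏ l, ((J l).choose (κ l) : ℝ)) ≤ 2 ^ (∑ l, J l) := by
    calc ∑ κ ∈ Finset.piAntidiag (Finset.univ : Finset (Fin n)) k,
        (∏ l, ((J l).choose (κ l) : ℝ)) ≤
        ∑ κ ∈ Fintype.piFinset (fun l => range (J l + 1)), (∏ l, ((J l).choose (κ l) : ℝ)) := by
          have hf : ∀ κ ∈ Finset.piAntidiag (Finset.univ : Finset (Fin n)) k,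
              (∏ l, ((J l).choose (κ l) : ℝ)) ≠ 0 →
              κ ∈ Fintype.piFinset (fun l => range (J l + 1)) := by
            intro κ _ hne
            rw [Fintype.mem_piFinset]
            intro l
            rw [mem_range]
            by_contra hcon
            apply hne
            exact Finset.prod_eq_zero (mem_univ l)
              (by rw [Nat.choose_eq_zero_of_lt (by omega)]; simp)
          rw [← Finset.sum_filter_of_ne hf]
          refine Finset.sum_le_sum_of_subset_of_nonneg (fun κ hκ => (mem_filter.1 hκ).2) ?_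
          intro κ _ _
          positivity
      _ = ∏ l, ∑ i ∈ range (J l + 1), ((J l).choose i : ℝ) := by
          rw [Finset.prod_univ_sum]
      _ = ∏ l, (2 : ℝ) ^ (J l) := by
          refine Finset.prod_congr rfl fun l _ => ?_
          have := Nat.sum_range_choose (J l)
          exact_mod_cast this
      _ = _ := by rw [Finset.prod_pow_eq_pow_sum]
  calc _ ≤ 2 ^ (∑ l, J l) * G := mul_le_mul_of_nonneg_right cnt hG0
    _ = _ := by rw [hG, mul_pow]; ring

lemma card_Dset {m n : ℕ} (r : Fin m → ℕ) :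
    ((Dset m n r).card : ℝ) ≤ ((2 : ℝ) ^ n) ^ (∑ h, r h) := by
  have h1 : (Dset m n r).card ≤ (2 ^ n) ^ (∑ h, r h) := by
    unfold Pool.Agent.H393R2.Dset
    rw [Fintype.card_piFinset, ← Finset.prod_pow_eq_pow_sum]
    refine Finset.prod_le_prod (fun _ _ => Nat.zero_le _) fun h _ => ?_
    have h2 : Finset.piAntidiag (Finset.univ : Finset (Fin n)) (r h) ⊆
        Fintype.piFinset (fun _ => range (r h + 1)) := by
      intro a ha
      have ha' : ∑ l, a l = r h := by simpa using ha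
      rw [Fintype.mem_piFinset]
      intro l
      rw [mem_range, ← ha']
      have := Finset.single_le_sum (f := a) (fun _ _ => Nat.zero_le _) (mem_univ l)
      omega
    refine (Finset.card_le_card h2).trans ?_
    rw [Fintype.card_piFinset]
    simp only [card_range, prod_const, card_univ, Fintype.card_fin]
    rw [← pow_mul, mul_comm, pow_mul]
    exact Nat.pow_le_pow_left (Nat.lt_two_pow_self) n
  exact_mod_cast h1

theorem est : EstStmt := by
  intro n s hn c γ hc hγ b hb
  set K1 : ℝ := 2 * n * c + c + 1 with hK1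
  have hn0 : (0 : ℝ) < n := by exact_mod_cast hn
  have hn1 : (1 : ℝ) ≤ n := by exact_mod_cast hn
  have hK1pos : 0 < K1 := by positivity
  have hs0 : (0 : ℝ) ≤ s := Nat.cast_nonneg s
  refine ⟨γ / (4 * n * ((1 + s) * K1)), by positivity, ?_⟩
  intro τ hτ hτ0 C X hC hX
  have hτ1 : (1 + s) * K1 * τ ≤ γ / (4 * n) := by
    have h0 : (0 : ℝ) < (1 + s) * K1 := by positivity
    calc (1 + s) * K1 * τ ≤ (1 + s) * K1 * (γ / (4 * n * ((1 + s) * K1))) := by gcongr
      _ = γ / (4 * n) := by field_simp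
  have hX0 : 0 < X := by linarith
  have hC0 : 0 < C := by linarith
  -- the base of the exponential factor
  set B : ℝ := X * 2 ^ n * C * (2 * X) with hB
  have hB1 : 1 ≤ B := by
    have a1 : (1 : ℝ) ≤ 2 ^ n := one_le_pow₀ (by norm_num)
    have a2 : (1 : ℝ) ≤ X * 2 ^ n := by nlinarith
    have a3 : (1 : ℝ) ≤ X * 2 ^ n * C := by nlinarith
    rw [hB]; nlinarith
  have hB0 : 0 < B := by linarith
  set Q : ℝ := Real.log B with hQ
  have hQ0 : 0 ≤ Q := Real.log_nonneg hB1
  set Lb : ℝ := ∑ v, Real.log (b v) with hLb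
  have hlb : ∀ v, 0 < Real.log (b v) := fun v => Real.log_pos (by exact_mod_cast hb v)
  have hLb0 : 0 ≤ Lb := Finset.sum_nonneg fun v _ => (hlb v).le
  refine ⟨1 + 4 * n * (Q + Lb) / γ, by
    have : 0 ≤ 4 * n * (Q + Lb) / γ := by positivity
    linarith, ?_⟩
  intro m hm r hr k hk N hN R0 h1 h2 α ε hα hε hsum A hA hlA e he d0 hd0 hb0 d hbd
  set Ns : ℝ := 1 + 4 * n * (Q + Lb) / γ with hNs
  have hNs1 : 1 ≤ Ns := by
    have : 0 ≤ 4 * n * (Q + Lb) / γ := by positivity
    rw [hNs]; linarith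
  have hNs0 : 0 < Ns := by linarith
  have hNsQ : Q ≤ γ / (4 * n) * Ns := by
    have : γ / (4 * n) * Ns = γ / (4 * n) + (Q + Lb) := by
      rw [hNs]; field_simp
    rw [this]
    have : 0 < γ / (4 * n) := by positivity
    linarith
  have hNsL : Lb ≤ γ / (4 * n) * Ns := by
    have : γ / (4 * n) * Ns = γ / (4 * n) + (Q + Lb) := by
      rw [hNs]; field_simp
    rw [this]
    have : 0 < γ / (4 * n) := by positivity
    linarith
  have hN0 : ∀ h, 0 < N h := fun h => lt_of_lt_of_le hNs0 (hN h)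
  have hr' : ∀ h, (1 : ℝ) ≤ r h := fun h => by exact_mod_cast hr h
  have hR0 : Ns ≤ R0 := by
    have h0 : Fin m := ⟨0, hm⟩
    calc Ns ≤ N h0 := hN h0
      _ = 1 * N h0 := by ring
      _ ≤ r h0 * N h0 := by have := hN0 h0; have := hr' h0; gcongr
      _ ≤ R0 := h2 h0
  have hR00 : 0 < R0 := by linarith
  have hm1 : (1 : ℝ) ≤ m := by exact_mod_cast hm
  set T : ℝ := m * R0 with hT
  have hTR : R0 ≤ T := by rw [hT]; nlinarith
  have hT0 : 0 < T := by linarith
  -- the sum of the degrees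
  have hsr : Ns * ∑ h, (r h : ℝ) ≤ T := by
    rw [Finset.mul_sum, hT]
    calc ∑ h, Ns * (r h : ℝ) ≤ ∑ h, N h * (r h : ℝ) :=
          Finset.sum_le_sum fun h _ => by have := hN h; gcongr
      _ ≤ m * R0 := sum_Nr h2
  have hNk : ∑ h, N h * (k h : ℝ) ≤ τ * T := by
    calc _ ≤ τ * R0 := sum_Nk hr hR00.le hk h2
      _ ≤ τ * T := by gcongr
  have hNr : ∑ h, N h * (r h : ℝ) ≤ T := sum_Nr h2
  -- the exponents
  set Tv : Fin s → ℝ := fun v => T * ((∑ l, ε v l) / n - K1 * τ) with hTv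
  refine ⟨fun v => ⌊Tv v / Real.log (b v)⌋₊, ?_, ?_⟩
  · intro v J hJ hdJ κ hκ hκJ
    apply Nat.floor_le_of_le
    rw [div_le_iff₀ (hlb v)]
    push_cast
    have e1 : ∀ h, N h * ∑ l, ε v l * (J h l : ℝ) - c * (N h * (k h : ℝ)) -
        τ * (N h * (r h : ℝ)) ≤
        ∑ l, ((e h v l : ℝ) * ((J h l - κ h l : ℕ) : ℝ)) * Real.log (b v) := by
      intro h
      have := block_e (c := c) hτ (hN0 h).le (ε v) (fun l => (hε v l).2) (e h v)
        (fun l => he h v l) (J h) (κ h) (hκJ h)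
      have e2 : (∑ l, (κ h l : ℝ)) = k h := by rw [← hκ h]; push_cast; rfl
      have e3 : (∑ l, (J h l : ℝ)) = r h := by rw [← mem_Dset.1 hJ h]; push_cast; rfl
      rw [e2, e3] at this
      exact this
    have e4 : ∑ h, (N h * ∑ l, ε v l * (J h l : ℝ) - c * (N h * (k h : ℝ)) -
        τ * (N h * (r h : ℝ))) ≤
        (∑ h, ∑ l, (e h v l : ℝ) * ((J h l - κ h l : ℕ) : ℝ)) * Real.log (b v) := by
      rw [Finset.sum_mul]
      refine Finset.sum_le_sum fun h _ => ?_
      rw [Finset.sum_mul]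
      exact e1 h
    refine le_trans ?_ e4
    rw [Finset.sum_sub_distrib, Finset.sum_sub_distrib, ← Finset.mul_sum, ← Finset.mul_sum]
    have e5 : ∑ h, N h * ∑ l, ε v l * (J h l : ℝ) = ∑ l, ε v l * ∑ h, N h * (J h l : ℝ) := by
      simp only [Finset.mul_sum]
      rw [Finset.sum_comm]
      refine Finset.sum_congr rfl fun l _ => Finset.sum_congr rfl fun h _ => ?_
      ring
    rw [e5]
    have e6 : ∑ l, ε v l * (R0 * ((m : ℝ) / n)) - n * (c * (2 * τ * T)) ≤
        ∑ l, ε v l * ∑ h, N h * (J h l : ℝ) := by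
      have : (n : ℝ) * (c * (2 * τ * T)) = ∑ l : Fin n, c * (2 * τ * T) := by
        rw [Finset.sum_const, Finset.card_univ, Fintype.card_fin, nsmul_eq_mul]
      rw [this, ← Finset.sum_sub_distrib]
      refine Finset.sum_le_sum fun l _ => ?_
      have hb1 := (abs_le.1 (bal_sum hr hR00.le hτ h1 h2 hJ l (hbd v J hJ hdJ l))).1
      have hε0 := (hε v l).1
      have hεc := (hε v l).2
      have q1 : ε v l * (R0 * ((m : ℝ) / n) - 2 * τ * (m * R0)) ≤
          ε v l * ∑ h, N h * (J h l : ℝ) := mul_le_mul_of_nonneg_left (by linarith) hε0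
      have q2 : ε v l * (2 * τ * (m * R0)) ≤ c * (2 * τ * (m * R0)) :=
        mul_le_mul_of_nonneg_right hεc (by positivity)
      rw [hT]
      linarith
    have e7 : ∑ l, ε v l * (R0 * ((m : ℝ) / n)) = T * ((∑ l, ε v l) / n) := by
      rw [← Finset.sum_mul, hT]; field_simp
    have e8 : c * ∑ h, N h * (k h : ℝ) ≤ c * (τ * T) := by gcongr
    have e9 : τ * ∑ h, N h * (r h : ℝ) ≤ τ * T := by gcongr
    have e10 : Tv v = T * ((∑ l, ε v l) / n) - n * (c * (2 * τ * T)) - c * (τ * T) - τ * T := by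
      rw [hTv, hK1]; ring
    rw [e10]
    rw [e7] at e6
    linarith
  · -- the archimedean bound
    have f1 : ∀ J ∈ Dset m n r, |(d0 J : ℝ)| * ∏ h,
        ∑ κ ∈ Finset.piAntidiag (Finset.univ : Finset (Fin n)) (k h),
          ∏ l, (((J h l).choose (κ l) : ℝ) * X ^ (κ l) * (X * A h l) ^ (J h l - κ l)) ≤
        C ^ (∑ h, r h) * ((2 * X) ^ (∑ h, r h) *
          Real.exp (T * ((∑ l, α l) / n + K1 * τ))) := by
      intro J hJ
      by_cases hz : d0 J = 0
      · rw [hz]; simp only [Int.cast_zero, abs_zero, zero_mul]; positivity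
      refine mul_le_mul (hd0 J hJ) ?_ ?_ (by positivity)
      · calc ∏ h, ∑ κ ∈ Finset.piAntidiag (Finset.univ : Finset (Fin n)) (k h),
            ∏ l, (((J h l).choose (κ l) : ℝ) * X ^ (κ l) * (X * A h l) ^ (J h l - κ l)) ≤
            ∏ h, ((2 * X) ^ (r h) * Real.exp (N h * ∑ l, α l * (J h l : ℝ) +
              c * (N h * k h) + τ * (N h * r h))) := by
              refine Finset.prod_le_prod (fun h _ => ?_) fun h _ => ?_
              · refine Finset.sum_nonneg fun κ _ => Finset.prod_nonneg fun l _ => ?_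
                have := (hA h l).le
                positivity
              · have := block_A (c := c) hτ (hN0 h).le hX α hα (A h) (hA h) (hlA h) (J h) (k h)
                have e3 : (∑ l, (J h l : ℝ)) = r h := by
                  rw [← mem_Dset.1 hJ h]; push_cast; rfl
                rw [e3, mem_Dset.1 hJ h] at this
                exact this
          _ = (2 * X) ^ (∑ h, r h) * Real.exp (∑ h, (N h * ∑ l, α l * (J h l : ℝ) +
              c * (N h * k h) + τ * (N h * r h))) := by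
              rw [Finset.prod_mul_distrib, Finset.prod_pow_eq_pow_sum, Real.exp_sum]
          _ ≤ _ := by
              refine mul_le_mul_of_nonneg_left (Real.exp_le_exp.2 ?_) (by positivity)
              rw [Finset.sum_add_distrib, Finset.sum_add_distrib, ← Finset.mul_sum,
                ← Finset.mul_sum]
              have e5 : ∑ h, N h * ∑ l, α l * (J h l : ℝ) =
                  ∑ l, α l * ∑ h, N h * (J h l : ℝ) := by
                simp only [Finset.mul_sum]
                rw [Finset.sum_comm]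
                refine Finset.sum_congr rfl fun l _ => Finset.sum_congr rfl fun h _ => ?_
                ring
              rw [e5]
              have e6 : ∑ l, α l * ∑ h, N h * (J h l : ℝ) ≤
                  ∑ l, α l * (R0 * ((m : ℝ) / n)) + n * (c * (2 * τ * T)) := by
                have : (n : ℝ) * (c * (2 * τ * T)) = ∑ l : Fin n, c * (2 * τ * T) := by
                  rw [Finset.sum_const, Finset.card_univ, Fintype.card_fin, nsmul_eq_mul]
                rw [this, ← Finset.sum_add_distrib]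
                refine Finset.sum_le_sum fun l _ => ?_
                have hb1 := bal_sum hr hR00.le hτ h1 h2 hJ l (hb0 J hJ hz l)
                have q1 : α l * (∑ h, N h * (J h l : ℝ) - R0 * ((m : ℝ) / n)) ≤
                    c * (2 * τ * (m * R0)) := by
                  refine (le_abs_self _).trans ?_
                  rw [abs_mul]
                  exact mul_le_mul (hα l) hb1 (abs_nonneg _) (by linarith)
                rw [hT]
                linarith
              have e7 : ∑ l, α l * (R0 * ((m : ℝ) / n)) = T * ((∑ l, α l) / n) := by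
                rw [← Finset.sum_mul, hT]; field_simp
              have e8 : c * ∑ h, N h * (k h : ℝ) ≤ c * (τ * T) := by gcongr
              have e9 : τ * ∑ h, N h * (r h : ℝ) ≤ τ * T := by gcongr
              have e10 : T * ((∑ l, α l) / n + K1 * τ) = T * ((∑ l, α l) / n) +
                  n * (c * (2 * τ * T)) + c * (τ * T) + τ * T := by
                rw [hK1]; ring
              rw [e10]
              rw [e7] at e6
              linarith
      · refine Finset.prod_nonneg fun h _ => Finset.sum_nonneg fun κ _ =>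
          Finset.prod_nonneg fun l _ => ?_
        have := (hA h l).le
        positivity
    have f2 : Big r k X d0 A ≤ Real.exp (Q * (∑ h, (r h : ℝ)) +
        T * ((∑ l, α l) / n + K1 * τ)) := by
      have g1 : Real.exp (Q * (∑ h, (r h : ℝ))) = B ^ (∑ h, r h) := by
        rw [hQ, mul_comm]
        have : (∑ h, (r h : ℝ)) = ((∑ h, r h : ℕ) : ℝ) := by push_cast; rfl
        rw [this, ← Real.log_pow, Real.exp_log (by positivity)]
      rw [Real.exp_add, g1]
      unfold Big
      calc X ^ (∑ h, r h) * ∑ J ∈ Dset m n r, |(d0 J : ℝ)| * ∏ h,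
            ∑ κ ∈ Finset.piAntidiag (Finset.univ : Finset (Fin n)) (k h),
              ∏ l, (((J h l).choose (κ l) : ℝ) * X ^ (κ l) * (X * A h l) ^ (J h l - κ l)) ≤
          X ^ (∑ h, r h) * ∑ J ∈ Dset m n r, C ^ (∑ h, r h) * ((2 * X) ^ (∑ h, r h) *
            Real.exp (T * ((∑ l, α l) / n + K1 * τ))) := by
            refine mul_le_mul_of_nonneg_left (Finset.sum_le_sum f1) (by positivity)
        _ = X ^ (∑ h, r h) * ((Dset m n r).card * (C ^ (∑ h, r h) * ((2 * X) ^ (∑ h, r h) *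
            Real.exp (T * ((∑ l, α l) / n + K1 * τ))))) := by
            rw [Finset.sum_const, nsmul_eq_mul]
        _ ≤ X ^ (∑ h, r h) * (((2 : ℝ) ^ n) ^ (∑ h, r h) * (C ^ (∑ h, r h) *
            ((2 * X) ^ (∑ h, r h) * Real.exp (T * ((∑ l, α l) / n + K1 * τ))))) := by
            refine mul_le_mul_of_nonneg_left (mul_le_mul_of_nonneg_right (card_Dset r) ?_) ?_ <;>
              positivity
        _ = _ := by rw [hB, mul_pow, mul_pow, mul_pow]; ring
    refine lt_of_le_of_lt f2 ?_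
    -- the product of the moduli
    have f3 : ∏ v, (b v : ℝ) ^ (⌊Tv v / Real.log (b v)⌋₊) =
        Real.exp (∑ v, (⌊Tv v / Real.log (b v)⌋₊ : ℝ) * Real.log (b v)) := by
      rw [Real.exp_sum]
      refine Finset.prod_congr rfl fun v _ => ?_
      have : (0 : ℝ) < b v := by have := hb v; exact_mod_cast (by omega : 0 < b v)
      rw [← Real.log_pow, Real.exp_log (by positivity)]
    rw [f3]
    apply Real.exp_lt_exp.2
    have f4 : ∑ v, Tv v - Lb ≤ ∑ v, (⌊Tv v / Real.log (b v)⌋₊ : ℝ) * Real.log (b v) := by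
      rw [hLb, ← Finset.sum_sub_distrib]
      refine Finset.sum_le_sum fun v _ => ?_
      have := (Nat.lt_floor_add_one (Tv v / Real.log (b v))).le
      rw [div_le_iff₀ (hlb v)] at this
      linarith
    refine lt_of_lt_of_le ?_ f4
    have f5 : ∑ v, Tv v = T * ((∑ v, ∑ l, ε v l) / n) - s * (T * (K1 * τ)) := by
      rw [hTv]
      simp only [mul_sub]
      rw [Finset.sum_sub_distrib, ← Finset.mul_sum, ← Finset.sum_div, Finset.sum_const,
        Finset.card_univ, Fintype.card_fin, nsmul_eq_mul]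
    rw [f5]
    have f6 : T * ((∑ l, α l) / n) + T * (γ / n) ≤ T * ((∑ v, ∑ l, ε v l) / n) := by
      rw [← mul_add, ← add_div]
      gcongr
    have f7 : Q * (∑ h, (r h : ℝ)) ≤ γ / (4 * n) * T := by
      have q0 : 0 ≤ ∑ h, (r h : ℝ) := Finset.sum_nonneg fun h _ => Nat.cast_nonneg _
      calc Q * (∑ h, (r h : ℝ)) ≤ (γ / (4 * n) * Ns) * (∑ h, (r h : ℝ)) := by gcongr
        _ = γ / (4 * n) * (Ns * ∑ h, (r h : ℝ)) := by ring
        _ ≤ _ := by gcongr
    have f8 : Lb ≤ γ / (4 * n) * T := by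
      refine hNsL.trans ?_
      have : Ns ≤ T := hR0.trans hTR
      gcongr
    have f9 : (1 + s) * K1 * τ * T ≤ γ / (4 * n) * T := by gcongr
    have f10 : T * (γ / n) = 4 * (γ / (4 * n) * T) := by field_simp
    have f11 : 0 < γ / (4 * n) * T := by positivity
    nlinarith

end Pool.Agent.TH461.SST.Est
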