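import Mathlib
import Pool.Agent.H9.Lib.R_seed8.TH461.SST.Stms

/-!
# The subspace theorem (assembly)
-/

set_option autoImplicit false

open Finset Filter Topology

namespace Pool.Agent.TH461.SST.Sub

open Pool.Agent.TH461.SST

/-! ### Linear algebra -/

/-- two vectors orthogonal to `d` independent vectors of a space of dimension `d + 1` are
proportional -/
lemma proportional {ι : Type} [Fintype ι] [DecidableEq ι] {d : ℕ} (hd : Fintype.card ι = d + 1)
    (w : Fin d → ι → ℤ) (hw : LinearIndependent ℤ w) (u v : ι → ℤ) (hv : v ≠ 0)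
    (hu1 : ∀ i, ∑ l, u l * w i l = 0) (hv1 : ∀ i, ∑ l, v l * w i l = 0) :
    ∃ α β : ℤ, β ≠ 0 ∧ ∀ l, β * u l = α * v l := by
  classical
  set W : Matrix (Fin d) ι ℚ := fun i l => (w i l : ℚ) with hW
  have hind : LinearIndependent ℚ W.row := by
    rw [← LinearIndependent.iff_fractionRing ℤ ℚ]
    have h1 := hw.map' ((Algebra.linearMap ℤ ℚ).compLeft ι) (by
      rw [LinearMap.ker_eq_bot]
      intro a b hab
      funext l
      have := congrFun hab l
      simpa using this)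
    exact h1
  have hrank : W.rank = d := by
    have := hind.rank_matrix
    simpa using this
  have hker : Module.finrank ℚ (LinearMap.ker W.mulVecLin) = 1 := by
    have h1 := LinearMap.finrank_range_add_finrank_ker W.mulVecLin
    rw [Module.finrank_fintype_fun_eq_card, hd] at h1
    have h2 : Module.finrank ℚ (LinearMap.range W.mulVecLin) = d := hrank
    omega
  have hmem : ∀ z : ι → ℤ, (∀ i, ∑ l, z l * w i l = 0) →
      (fun l => (z l : ℚ)) ∈ LinearMap.ker W.mulVecLin := by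
    intro z hz
    rw [LinearMap.mem_ker]
    funext i
    have h1 := hz i
    have h2 : ((∑ l, z l * w i l : ℤ) : ℚ) = 0 := by rw [h1]; simp
    push_cast at h2
    rw [Matrix.mulVecLin_apply]
    unfold Matrix.mulVec dotProduct
    rw [Pi.zero_apply, ← h2]
    refine Finset.sum_congr rfl fun l _ => ?_
    simp [hW, mul_comm]
  have hv0 : (⟨fun l => (v l : ℚ), hmem v hv1⟩ : LinearMap.ker W.mulVecLin) ≠ 0 := by
    intro h
    apply hv
    have h1 := congrArg Subtype.val h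
    funext l
    have h2 := congrFun h1 l
    simpa using h2
  obtain ⟨q, hq⟩ := exists_smul_eq_of_finrank_eq_one hker hv0
    (⟨fun l => (u l : ℚ), hmem u hu1⟩ : LinearMap.ker W.mulVecLin)
  refine ⟨q.num, q.den, by exact_mod_cast q.den_ne_zero, fun l => ?_⟩
  have h1 := congrArg Subtype.val hq
  have h2 : q * (v l : ℚ) = (u l : ℚ) := by
    have := congrFun h1 l
    simpa using this
  have h3 : (q.den : ℚ) ≠ 0 := by exact_mod_cast q.den_ne_zero
  have h4 : ((q.den : ℤ) : ℚ) * (u l : ℚ) = (q.num : ℚ) * (v l : ℚ) := by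
    rw [← h2]
    have h5 : (q.num : ℚ) = q * q.den := by
      rw [Rat.mul_den_eq_num]
    rw [h5]
    push_cast
    ring
  exact_mod_cast h4

/-! ### The compound matrix -/

lemma cpd_det_ne (hsf : SFStmt) {n k : ℕ} (hk : 1 ≤ k) (hkn : k < n)
    (T : Matrix (Fin n) (Fin n) ℤ) (hT : T.det ≠ 0) : (cpd k T).det ≠ 0 := by
  have h1 : (T.map (Int.castRingHom ℝ)).det ≠ 0 := by
    have := RingHom.map_det (Int.castRingHom ℝ) T
    rw [RingHom.mapMatrix_apply] at this
    rw [← this]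
    simpa using hT
  have h2 := hsf n k hk hkn.le (T.map (Int.castRingHom ℝ)) h1
  have h3 : cpd k (T.map (Int.castRingHom ℝ)) = (cpd k T).map (Int.castRingHom ℝ) := by
    ext I J
    unfold cpd
    rw [Matrix.map_apply, RingHom.map_det, RingHom.mapMatrix_apply]
    rfl
  rw [h3] at h2
  have h4 := RingHom.map_det (Int.castRingHom ℝ) (cpd k T)
  rw [RingHom.mapMatrix_apply, h2] at h4
  intro h5
  rw [h5, map_zero] at h4
  exact pow_ne_zero _ h1 h4.symm

/-! ### The functional -/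

/-- the matrix of the unit vectors of a set -/
def EE {n k : ℕ} (I0 : Ix n k) : Matrix (Fin n) (Fin k) ℤ :=
  fun l c => if l = I0.1.orderEmbOfFin I0.2 c then 1 else 0

lemma wedge_EE_self {n k : ℕ} (I0 : Ix n k) : wedge (EE I0) I0 = 1 := by
  unfold wedge
  have : (EE I0).submatrix (I0.1.orderEmbOfFin I0.2) id = (1 : Matrix (Fin k) (Fin k) ℤ) := by
    ext a c
    rw [Matrix.submatrix_apply, Matrix.one_apply]
    unfold EE
    simp
  rw [this, Matrix.det_one]

lemma wedge_EE_ne {n k : ℕ} (I0 I : Ix n k) (h : I ≠ I0) : wedge (EE I0) I = 0 := by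
  have h1 : ¬ I.1 ⊆ I0.1 := by
    intro hs
    apply h
    apply Subtype.ext
    exact Finset.eq_of_subset_of_card_le hs (by rw [I.2, I0.2])
  obtain ⟨i, hi, hi0⟩ := Finset.not_subset.1 h1
  have h2 : i ∈ Set.range (I.1.orderEmbOfFin I.2) := by
    rw [Finset.range_orderEmbOfFin]
    exact hi
  obtain ⟨a, ha⟩ := h2
  unfold wedge
  refine Matrix.det_eq_zero_of_row_eq_zero a fun c => ?_
  rw [Matrix.submatrix_apply, ha]
  unfold EE
  rw [if_neg]
  rintro rfl
  apply hi0
  exact Finset.orderEmbOfFin_mem _ _ _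

/-- the functional -/
noncomputable def Phi {n k : ℕ} (Y : Ix n k → ℤ) (I0 : Ix n k) (c0 : Fin k) :
    (Fin n → ℤ) →ₗ[ℤ] ℤ :=
  ∑ I : Ix n k, Y I • ((LinearMap.proj c0).comp
    ((Matrix.cramer ((EE I0).submatrix (I.1.orderEmbOfFin I.2) id)).comp
      (LinearMap.funLeft ℤ ℤ (I.1.orderEmbOfFin I.2))))

lemma Phi_apply {n k : ℕ} (Y : Ix n k → ℤ) (I0 : Ix n k) (c0 : Fin k) (x : Fin n → ℤ) :
    Phi Y I0 c0 x = ∑ I, Y I * wedge ((EE I0).updateCol c0 x) I := by
  unfold Phi
  rw [LinearMap.sum_apply]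
  refine Finset.sum_congr rfl fun I _ => ?_
  rw [LinearMap.smul_apply, smul_eq_mul]
  have h1 : ((EE I0).submatrix (I.1.orderEmbOfFin I.2) id).updateCol c0
      (LinearMap.funLeft ℤ ℤ (I.1.orderEmbOfFin I.2) x) =
      ((EE I0).updateCol c0 x).submatrix (I.1.orderEmbOfFin I.2) id := by
    ext a c
    rw [Matrix.updateCol_apply, Matrix.submatrix_apply, Matrix.submatrix_apply,
      Matrix.updateCol_apply]
    rfl
  rw [LinearMap.comp_apply, LinearMap.comp_apply, LinearMap.proj_apply, Matrix.cramer_apply, h1]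
  rfl

lemma Phi_unit {n k : ℕ} (Y : Ix n k → ℤ) (I0 : Ix n k) (c0 : Fin k) :
    Phi Y I0 c0 (fun j => if I0.1.orderEmbOfFin I0.2 c0 = j then 1 else 0) = Y I0 := by
  rw [Phi_apply]
  have h1 : (EE I0).updateCol c0 (fun j => if I0.1.orderEmbOfFin I0.2 c0 = j then 1 else 0) =
      EE I0 := by
    ext l c
    rw [Matrix.updateCol_apply]
    split_ifs with h h'
    · subst h
      unfold EE
      rw [if_pos h'.symm]
    · subst h
      unfold EE
      rw [if_neg (fun hh => h' hh.symm)]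
    · rfl
  rw [h1, Finset.sum_eq_single I0, wedge_EE_self, mul_one]
  · intro I _ hI
    rw [wedge_EE_ne I0 I hI, mul_zero]
  · intro h
    exact absurd (Finset.mem_univ _) h

/-! ### Dimension one -/

lemma dim_one {s : ℕ} (M0 : Matrix (Fin 1) (Fin 1) ℤ) (M : Fin s → Matrix (Fin 1) (Fin 1) ℤ)
    (b : Fin s → ℕ) (hP : Places M0 M b) (c γ : ℝ) (hγ : 0 < γ)
    (N : ℕ → ℝ) (hN : Tendsto N atTop atTop)
    (e : ℕ → Fin s → Fin 1 → ℕ) (A : ℕ → Fin 1 → ℝ) (hSize : ∀ t, Size b c γ (N t) (e t) (A t))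
    (x : ℕ → Fin 1 → ℤ) (hx : ∀ t, x t ≠ 0) (hSol : ∀ t, Sol M0 M b (e t) (A t) (x t)) :
    False := by
  obtain ⟨h0, hM, hb, hcop⟩ := hP
  rw [Matrix.det_fin_one] at h0
  set D : ℤ := ∏ v, M v 0 0 with hD
  have hM' : ∀ v, M v 0 0 ≠ 0 := fun v => by
    have := hM v
    rwa [Matrix.det_fin_one] at this
  have hD0 : D ≠ 0 := Finset.prod_ne_zero_iff.2 fun v _ => hM' v
  obtain ⟨t, ht⟩ := (hN.eventually_gt_atTop (Real.log |(D : ℝ)| / γ)).exists
  obtain ⟨hs1, hs2, hs3, hs4⟩ := hSize t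
  obtain ⟨hA, hdvd⟩ := hSol t
  have hx0 : x t 0 ≠ 0 := by
    intro h
    apply hx t
    funext i
    rw [Subsingleton.elim i 0, h]
    rfl
  have hdiv : (∏ v, (b v : ℤ) ^ (e t v 0)) ∣ D * x t 0 := by
    refine Finset.prod_dvd_of_coprime ?_ ?_
    · intro v _ v' _ hvv'
      have := hcop v v' hvv'
      exact (Nat.isCoprime_iff_coprime.2 this).pow
    · intro v _
      have h1 := hdvd v 0
      rw [Fin.sum_univ_one] at h1
      refine h1.trans ?_
      exact mul_dvd_mul_right (Finset.dvd_prod_of_mem _ (Finset.mem_univ v)) _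
  have hne : D * x t 0 ≠ 0 := mul_ne_zero hD0 hx0
  have hle : (∏ v, (b v : ℤ) ^ (e t v 0)) ≤ |D * x t 0| :=
    Int.le_of_dvd (abs_pos.2 hne) ((dvd_abs _ _).2 hdiv)
  have hA0 : |(x t 0 : ℝ)| ≤ A t 0 := by
    have h1 := hA 0
    rw [Fin.sum_univ_one] at h1
    push_cast at h1
    rw [abs_mul] at h1
    have h2 : (1:ℝ) ≤ |(M0 0 0 : ℝ)| := by
      have : (1:ℤ) ≤ |M0 0 0| := Int.one_le_abs h0
      exact_mod_cast this
    have h3 := abs_nonneg ((x t 0 : ℤ) : ℝ)
    nlinarith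
  have hbpos : ∀ v, (0:ℝ) < b v := fun v => by
    have := hb v
    have : 0 < b v := by omega
    exact_mod_cast this
  have hler : (∏ v, (b v : ℝ) ^ (e t v 0)) ≤ |(D : ℝ)| * A t 0 := by
    have h1 : ((∏ v, (b v : ℤ) ^ (e t v 0) : ℤ) : ℝ) ≤ ((|D * x t 0| : ℤ) : ℝ) := by
      exact_mod_cast hle
    push_cast at h1
    rw [abs_mul] at h1
    refine h1.trans ?_
    gcongr
  have hlog := Real.log_le_log (Finset.prod_pos fun v _ => pow_pos (hbpos v) _) hler
  have hDr : (0:ℝ) < |(D : ℝ)| := by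
    rw [abs_pos]
    exact_mod_cast hD0
  rw [Real.log_mul hDr.ne' (hs2 0).ne', Real.log_prod (fun v _ => (pow_pos (hbpos v) _).ne')] at hlog
  rw [Fin.sum_univ_one] at hs4
  have h5 : ∑ v, ∑ l, (e t v l : ℝ) * Real.log (b v) = ∑ v, Real.log ((b v : ℝ) ^ (e t v 0)) := by
    refine Finset.sum_congr rfl fun v _ => ?_
    rw [Fin.sum_univ_one, Real.log_pow]
  rw [h5] at hs4
  rw [div_lt_iff₀ hγ] at ht
  linarith

/-! ### The theorem -/

lemma frequently_fin {n : ℕ} {P : ℕ → ℕ → Prop} (h : ∀ᶠ t in atTop, ∃ k, k < n ∧ P k t) :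
    ∃ k, k < n ∧ ∃ᶠ t in atTop, P k t := by
  by_contra hc
  push Not at hc
  have h1 : ∀ᶠ t in atTop, ∀ k ∈ Finset.range n, ¬ P k t := by
    rw [Filter.eventually_all_finset]
    intro k hk
    exact hc k (Finset.mem_range.1 hk)
  obtain ⟨t, ⟨k, hk, hP⟩, h2⟩ := (h.and h1).exists
  exact h2 k (Finset.mem_range.2 hk) hP

theorem subspace (hpen : PenStmt) (hcb : CBStmt) (hsf : SFStmt) (hred : RedStmt) :
    SubspaceStmt := by
  intro n s hn M0 M b hP c γ hc hγ N hN e A hSize x hx hSol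
  rcases Nat.lt_or_ge n 2 with hn2 | hn2
  · have h1 : n = 1 := by omega
    subst h1
    exact (dim_one M0 M b hP c γ hγ N hN e A hSize x hx hSol).elim
  obtain ⟨c', γ', N1, hc', hγ', hred⟩ := hred n s hn2 M0 M b hP c γ hc hγ
  have hev : ∀ᶠ t in atTop, ∃ k, k < n ∧ (1 ≤ k ∧ ∃ (e' : Fin s → Ix n k → ℕ) (A' : Ix n k → ℝ)
        (w : Fin (n.choose k - 1) → Ix n k → ℤ) (y : Ix n k → ℤ),
        Size b c' γ' (N t) e' A' ∧ LinearIndependent ℤ w ∧
        (∀ i, Sol (cpd k M0) (fun v => cpd k (M v)) b e' A' (w i)) ∧ y ≠ 0 ∧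
        (∀ i, ∑ I, y I * w i I = 0) ∧
        ∀ V : Matrix (Fin n) (Fin k) ℤ, (∃ c0, ∀ l, V l c0 = x t l) →
          ∑ I, y I * wedge V I = 0) := by
    filter_upwards [hN.eventually_ge_atTop N1] with t ht
    obtain ⟨k, hk1, hk2, e', A', w, y, h⟩ := hred (N t) ht (e t) (A t) (hSize t) (x t) (hx t)
      (hSol t)
    exact ⟨k, hk2, hk1, e', A', w, y, h⟩
  obtain ⟨k, hkn, hfr⟩ := frequently_fin hev
  obtain ⟨φ, hφ, hall⟩ := Filter.extraction_of_frequently_atTop hfr
  have hk1 : 1 ≤ k := (hall 0).1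
  choose e' A' w y hS hli hsol hy0 hyw hyV using fun m => (hall m).2
  -- the number of the coordinates
  have hch : 2 ≤ n.choose k := by
    obtain ⟨n1, rfl⟩ : ∃ n1, n = n1 + 1 := ⟨n - 1, by omega⟩
    obtain ⟨k1, rfl⟩ : ∃ k1, k = k1 + 1 := ⟨k - 1, by omega⟩
    rw [Nat.choose_succ_succ']
    have h1 : 0 < n1.choose k1 := Nat.choose_pos (by omega)
    have h2 : 0 < n1.choose (k1 + 1) := Nat.choose_pos (by omega)
    omega
  have hcard : Fintype.card (Ix n k) = n.choose k - 1 + 1 := by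
    have h1 : Fintype.card (Ix n k) = (Fintype.card (Fin n)).choose k := Fintype.card_finset_len k
    rw [h1, Fintype.card_fin]
    omega
  let σ : Ix n k ≃ Fin (n.choose k - 1 + 1) := Fintype.equivFinOfCardEq hcard
  -- transport
  obtain ⟨h0, hM, hb, hcop⟩ := hP
  have hdet : ∀ T : Matrix (Fin n) (Fin n) ℤ, T.det ≠ 0 →
      ((cpd k T).submatrix σ.symm σ.symm).det ≠ 0 := by
    intro T hT
    rw [Matrix.det_submatrix_equiv_self]
    exact cpd_det_ne hsf hk1 hkn T hT
  have hPl : Places ((cpd k M0).submatrix σ.symm σ.symm)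
      (fun v => (cpd k (M v)).submatrix σ.symm σ.symm) b :=
    ⟨hdet M0 h0, fun v => hdet (M v) (hM v), hb, hcop⟩
  have hN' : Tendsto (fun m => N (φ m)) atTop atTop := hN.comp hφ.tendsto_atTop
  have hsum : ∀ f : Ix n k → ℝ, ∑ l, f (σ.symm l) = ∑ I, f I := fun f => Equiv.sum_comp σ.symm f
  have hsumZ : ∀ f : Ix n k → ℤ, ∑ l, f (σ.symm l) = ∑ I, f I := fun f => Equiv.sum_comp σ.symm f
  have hS' : ∀ m, Size b c' γ' (N (φ m)) (fun v l => e' m v (σ.symm l))
      (fun l => A' m (σ.symm l)) := by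
    intro m
    obtain ⟨g1, g2, g3, g4⟩ := hS m
    refine ⟨fun v l => g1 v _, fun l => g2 _, fun l => g3 _, ?_⟩
    rw [hsum (fun I => Real.log (A' m I))]
    refine g4.trans (le_of_eq ?_)
    refine Finset.sum_congr rfl fun v _ => ?_
    exact (hsum (fun I => (e' m v I : ℝ) * Real.log (b v))).symm
  have hli' : ∀ m, LinearIndependent ℤ (fun i l => w m i (σ.symm l)) := by
    intro m
    have h1 := (hli m).map' (LinearMap.funLeft ℤ ℤ σ.symm) (by
      rw [LinearMap.ker_eq_bot]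
      exact LinearMap.funLeft_injective_of_surjective ℤ ℤ _ σ.symm.surjective)
    exact h1
  have hsol' : ∀ m i, Sol ((cpd k M0).submatrix σ.symm σ.symm)
      (fun v => (cpd k (M v)).submatrix σ.symm σ.symm) b (fun v l => e' m v (σ.symm l))
      (fun l => A' m (σ.symm l)) (fun l => w m i (σ.symm l)) := by
    intro m i
    obtain ⟨g1, g2⟩ := hsol m i
    refine ⟨fun l => ?_, fun v l => ?_⟩
    · have h1 := g1 (σ.symm l)
      rw [← hsumZ] at h1
      exact h1
    · have h1 := g2 v (σ.symm l)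
      rw [← hsumZ] at h1
      exact h1
  obtain ⟨ys, hys0, hys⟩ := hpen (n.choose k - 1) (by omega) s _ _ b hPl c' γ' hc' hγ'
    (fun m => N (φ m)) hN' (fun m v l => e' m v (σ.symm l)) (fun m l => A' m (σ.symm l)) hS'
    (fun m i l => w m i (σ.symm l)) hli' hsol'
  -- the vector in the compound space
  set Y : Ix n k → ℤ := fun I => ys (σ I) with hY
  obtain ⟨I0, hI0⟩ : ∃ I0, Y I0 ≠ 0 := by
    by_contra hc
    push Not at hc
    apply hys0
    funext l
    have := hc (σ.symm l)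
    rw [hY] at this
    simpa using this
  have c0 : Fin k := ⟨0, hk1⟩
  refine ⟨fun l => Phi Y I0 c0 (fun j => if l = j then 1 else 0), ?_, ?_⟩
  · intro h
    have h1 := congrFun h (I0.1.orderEmbOfFin I0.2 c0)
    simp only [Pi.zero_apply] at h1
    rw [Phi_unit] at h1
    exact hI0 h1
  · refine hφ.tendsto_atTop.frequently (hys.mono fun m hm => ?_)
    have hYw : ∀ i, ∑ I, Y I * w m i I = 0 := by
      intro i
      rw [← hm i, ← hsumZ]
      refine Finset.sum_congr rfl fun l _ => ?_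
      rw [hY]
      simp
    obtain ⟨α, β, hβ, hαβ⟩ := proportional hcard (w m) (hli m) Y (y m) (hy0 m) hYw (hyw m)
    have h1 : ∑ I, Y I * wedge ((EE I0).updateCol c0 (x (φ m))) I = 0 := by
      have h2 := hyV m ((EE I0).updateCol c0 (x (φ m)))
        ⟨c0, fun l => by rw [Matrix.updateCol_self]⟩
      have h3 : β * ∑ I, Y I * wedge ((EE I0).updateCol c0 (x (φ m))) I =
          α * ∑ I, y m I * wedge ((EE I0).updateCol c0 (x (φ m))) I := by
        rw [Finset.mul_sum, Finset.mul_sum]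
        refine Finset.sum_congr rfl fun I _ => ?_
        rw [← mul_assoc, ← mul_assoc, hαβ I]
      rw [h2, mul_zero] at h3
      exact (mul_eq_zero.1 h3).resolve_left hβ
    rw [← Phi_apply] at h1
    have h2 := LinearMap.pi_apply_eq_sum_univ (Phi Y I0 c0) (x (φ m))
    rw [h1] at h2
    refine Eq.trans ?_ h2.symm
    refine Finset.sum_congr rfl fun l _ => ?_
    rw [smul_eq_mul, mul_comm]

end Pool.Agent.TH461.SST.Sub
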