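import Mathlib
import Pool.Agent.H9.Lib.R_seed8.TH461.SST.Stms
import Pool.Agent.H9.Lib.R_seed8.H393R2.Geom4

set_option autoImplicit false

open Finset Filter Topology

namespace Pool.Agent.TH461.SST.Comp

open Pool.Agent.TH461.SST

/-! ### Geometry of numbers for arbitrary index types -/

/-- the conclusion of `Pool.Agent.H393R2.geometry` -/
def GeoProp (M : ℕ) (C : ℝ) : Prop :=
  ∀ (L Ls : Matrix (Fin M) (Fin M) ℝ), |L.det| = 1 → Ls.transpose * L = 1 →
      ∀ (x : Fin M → ℤ), x ≠ 0 → ∀ κ₁ κ₂ κ₃ : ℝ, 0 < κ₁ → 0 < κ₃ → C * κ₁ < κ₂ →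
        (∀ l, |(L.mulVec (fun i => (x i : ℝ))) l| ≤ κ₁) →
        (∀ x' : Fin M → ℤ, LinearIndependent ℤ ![x, x'] →
          ∃ l, κ₂ ≤ |(L.mulVec (fun i => (x' i : ℝ))) l|) →
        (∀ w : Fin M → ℤ, w ≠ 0 → ∃ l, κ₃ ≤ |(Ls.mulVec (fun i => (w i : ℝ))) l|) →
        ∃ A : Fin M → ℝ, (∀ l, κ₃ ≤ A l ∧ A l ≤ C / κ₂) ∧ ∏ l, A l ≤ C * κ₁ / κ₂ ∧
          ∃ w : Fin (M - 1) → Fin M → ℤ, LinearIndependent ℤ w ∧
            (∀ i, ∑ l, x l * w i l = 0) ∧
            ∀ i l, |(Ls.mulVec (fun j => (w i j : ℝ))) l| ≤ A l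

lemma mulVec_re {ι : Type} [Fintype ι] [DecidableEq ι] {M : ℕ} (e : ι ≃ Fin M)
    (T : Matrix ι ι ℝ) (v : Fin M → ℤ) (l : Fin M) :
    ((T.submatrix e.symm e.symm).mulVec (fun i => (v i : ℝ))) l =
      (T.mulVec (fun i => (v (e i) : ℝ))) (e.symm l) := by
  rw [Matrix.submatrix_mulVec_equiv]
  rfl

theorem geomIx {ι : Type} [Fintype ι] [DecidableEq ι] {M : ℕ} (e : ι ≃ Fin M) {C : ℝ}
    (h : GeoProp M C) (L Ls : Matrix ι ι ℝ) (hL : |L.det| = 1) (hLs : Ls.transpose * L = 1)
    (x : ι → ℤ) (hx : x ≠ 0) (κ₁ κ₂ κ₃ : ℝ) (h1 : 0 < κ₁) (h3 : 0 < κ₃) (h12 : C * κ₁ < κ₂)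
    (hx1 : ∀ l, |(L.mulVec (fun i => (x i : ℝ))) l| ≤ κ₁)
    (hx2 : ∀ x' : ι → ℤ, (∀ s t : ℤ, s • x + t • x' = 0 → s = 0 ∧ t = 0) →
      ∃ l, κ₂ ≤ |(L.mulVec (fun i => (x' i : ℝ))) l|)
    (hd : ∀ w : ι → ℤ, w ≠ 0 → ∃ l, κ₃ ≤ |(Ls.mulVec (fun i => (w i : ℝ))) l|) :
    ∃ A : ι → ℝ, (∀ l, κ₃ ≤ A l) ∧ ∏ l, A l ≤ C * κ₁ / κ₂ ∧
      ∃ w : Fin (M - 1) → ι → ℤ, LinearIndependent ℤ w ∧ (∀ i, ∑ l, x l * w i l = 0) ∧
        ∀ i l, |(Ls.mulVec (fun j => (w i j : ℝ))) l| ≤ A l := by
  obtain ⟨A, hA, hAp, w, hw1, hw2, hw3⟩ := h (L.submatrix e.symm e.symm)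
    (Ls.submatrix e.symm e.symm) (by rw [Matrix.det_submatrix_equiv_self]; exact hL)
    (by
      rw [Matrix.transpose_submatrix, Matrix.submatrix_mul_equiv, hLs, Matrix.submatrix_one_equiv])
    (fun l => x (e.symm l))
    (by
      intro h0
      apply hx
      funext i
      have := congrFun h0 (e i)
      simpa using this)
    κ₁ κ₂ κ₃ h1 h3 h12
    (by
      intro l
      rw [mulVec_re e L (fun l => x (e.symm l)) l]
      have := hx1 (e.symm l)
      simpa using this)
    (by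
      intro x' hx'
      rw [LinearIndependent.pair_iff] at hx'
      obtain ⟨l, hl⟩ := hx2 (fun i => x' (e i)) (by
        intro s t hst
        apply hx' s t
        funext l
        have := congrFun hst (e.symm l)
        simpa using this)
      refine ⟨e l, ?_⟩
      rw [mulVec_re e L x' (e l), e.symm_apply_apply]
      exact hl)
    (by
      intro w hw
      obtain ⟨l, hl⟩ := hd (fun i => w (e i)) (by
        intro h0
        apply hw
        funext l
        have := congrFun h0 (e.symm l)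
        simpa using this)
      refine ⟨e l, ?_⟩
      rw [mulVec_re e Ls w (e l), e.symm_apply_apply]
      exact hl)
  refine ⟨fun i => A (e i), fun l => (hA (e l)).1, ?_, fun i l => w i (e l), ?_, ?_, ?_⟩
  · rw [Equiv.prod_comp e A]
    exact hAp
  · have := hw1.map' (LinearEquiv.funCongrLeft ℤ ℤ e).toLinearMap (LinearEquiv.ker _)
    exact this
  · intro i
    have := hw2 i
    rw [← Equiv.sum_comp e] at this
    simpa using this
  · intro i l
    have := hw3 i (e l)
    rw [mulVec_re e Ls (w i) (e l), e.symm_apply_apply] at this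
    exact this

/-! ### Compound matrices -/

lemma cpd_mul (hcb : CBStmt) {R : Type} [CommRing R] {n k : ℕ} (S T : Matrix (Fin n) (Fin n) R) :
    cpd k (S * T) = cpd k S * cpd k T := by
  ext I J
  have h := congrFun (hcb R n k S (T.submatrix id (J.1.orderEmbOfFin J.2))) I
  have e1 : S * T.submatrix id (J.1.orderEmbOfFin J.2) =
      (S * T).submatrix id (J.1.orderEmbOfFin J.2) := by
    ext a b
    simp [Matrix.mul_apply]
  rw [e1] at h
  exact h

lemma cpd_map {n k : ℕ} (T : Matrix (Fin n) (Fin n) ℤ) :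
    (cpd k T).map (Int.cast : ℤ → ℝ) = cpd k (T.map (Int.cast : ℤ → ℝ)) := by
  ext I J
  simp only [cpd, Matrix.map_apply]
  have := (Int.castRingHom ℝ).map_det (T.submatrix (I.1.orderEmbOfFin I.2) (J.1.orderEmbOfFin J.2))
  simp only [eq_intCast] at this
  rw [this]
  rfl

lemma det_bound {m : Type} [Fintype m] [DecidableEq m] (A : Matrix m m ℝ) (b : m → ℝ)
    (h : ∀ i j, |A i j| ≤ b j) : |A.det| ≤ ((Fintype.card m).factorial : ℝ) * ∏ j, b j := by
  rw [Matrix.det_apply']
  have hb : ∀ σ : Equiv.Perm m, |((Equiv.Perm.sign σ : ℤ) : ℝ) * ∏ i, A (σ i) i| ≤ ∏ j, b j := by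
    intro σ
    rw [abs_mul, Finset.abs_prod]
    have h1 : |((Equiv.Perm.sign σ : ℤ) : ℝ)| = 1 := by
      rcases Int.units_eq_one_or (Equiv.Perm.sign σ) with h | h <;> simp [h]
    rw [h1, one_mul]
    exact Finset.prod_le_prod (fun i _ => abs_nonneg _) (fun i _ => h _ _)
  calc |∑ σ : Equiv.Perm m, ((Equiv.Perm.sign σ : ℤ) : ℝ) * ∏ i, A (σ i) i|
      ≤ ∑ σ : Equiv.Perm m, |((Equiv.Perm.sign σ : ℤ) : ℝ) * ∏ i, A (σ i) i| :=
        Finset.abs_sum_le_sum_abs _ _
    _ ≤ ∑ _σ : Equiv.Perm m, ∏ j, b j := Finset.sum_le_sum (fun σ _ => hb σ)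
    _ = ((Fintype.card m).factorial : ℝ) * ∏ j, b j := by
        rw [Finset.sum_const, Finset.card_univ, Fintype.card_perm, nsmul_eq_mul]

/-- products over index sets -/
noncomputable def lamP {n k : ℕ} (lam : Fin n → ℝ) (J : Ix n k) : ℝ := ∏ j ∈ J.1, lam j

lemma lamP_eq {n k : ℕ} (lam : Fin n → ℝ) (J : Ix n k) :
    ∏ i : Fin k, lam (J.1.orderEmbOfFin J.2 i) = lamP lam J := by
  unfold lamP
  conv_rhs => rw [← Finset.map_orderEmbOfFin_univ J.1 J.2]
  rw [Finset.prod_map]
  rfl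

lemma lamP_pos {n k : ℕ} {lam : Fin n → ℝ} (h : ∀ i, 0 < lam i) (J : Ix n k) : 0 < lamP lam J :=
  Finset.prod_pos fun i _ => h i

lemma cpd_diag {n k : ℕ} (lam : Fin n → ℝ) :
    cpd k (Matrix.diagonal lam) = Matrix.diagonal (fun J => lamP lam J) := by
  ext I J
  by_cases h : I = J
  · subst h
    rw [Matrix.diagonal_apply_eq]
    simp only [cpd]
    rw [Matrix.submatrix_diagonal _ _ (I.1.orderEmbOfFin I.2).injective, Matrix.det_diagonal]
    exact lamP_eq lam I
  · rw [Matrix.diagonal_apply_ne _ h]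
    simp only [cpd]
    have : ∃ i ∈ I.1, i ∉ J.1 := by
      by_contra hcon
      push Not at hcon
      apply h
      apply Subtype.ext
      exact Finset.eq_of_subset_of_card_le hcon (by rw [I.2, J.2])
    obtain ⟨i, hi, hiJ⟩ := this
    have h2 : i ∈ Set.range (I.1.orderEmbOfFin I.2) := by
      rw [Finset.range_orderEmbOfFin]
      exact hi
    obtain ⟨a, ha⟩ := h2
    apply Matrix.det_eq_zero_of_row_eq_zero a
    intro j
    rw [Matrix.submatrix_apply, ha]
    apply Matrix.diagonal_apply_ne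
    intro h3
    apply hiJ
    rw [h3]
    exact Finset.orderEmbOfFin_mem J.1 J.2 j

lemma prod_lamP (hsf : SFStmt) {n k : ℕ} (hk : 1 ≤ k) (hkn : k ≤ n) {lam : Fin n → ℝ}
    (h : ∀ i, 0 < lam i) :
    ∏ J : Ix n k, lamP lam J = (∏ i, lam i) ^ ((n - 1).choose (k - 1)) := by
  have h1 := hsf n k hk hkn (Matrix.diagonal lam) (by
    rw [Matrix.det_diagonal]
    exact (Finset.prod_pos fun i _ => h i).ne')
  rw [cpd_diag, Matrix.det_diagonal, Matrix.det_diagonal] at h1
  exact h1

/-- the set of the last `k` indices -/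
def J0 (n k : ℕ) (hk : 1 ≤ k) (hkn : k < n) : Ix n k :=
  ⟨Finset.Ici (⟨n - k, by omega⟩ : Fin n), by
    rw [Fin.card_Ici]
    simp only
    omega⟩

lemma mem_J0 {n k : ℕ} (hk : 1 ≤ k) (hkn : k < n) (i : Fin n) :
    i ∈ (J0 n k hk hkn).1 ↔ n - k ≤ (i : ℕ) := by
  simp [J0, Fin.le_def]

lemma lamP_gap {n k : ℕ} (hk : 1 ≤ k) (hkn : k < n) {lam : Fin n → ℝ} (hpos : ∀ i, 0 < lam i)
    (hmono : ∀ i j, i ≤ j → lam i ≤ lam j) {g : ℝ} (hg : 1 ≤ g)
    (hgap : ∀ i j : Fin n, (i : ℕ) < n - k → n - k ≤ (j : ℕ) → g * lam i ≤ lam j)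
    {J : Ix n k} (hJ : J ≠ J0 n k hk hkn) :
    g * lamP lam J ≤ lamP lam (J0 n k hk hkn) := by
  classical
  set J' := J0 n k hk hkn with hJ'
  have hcard : (J.1 \ J'.1).card = (J'.1 \ J.1).card :=
    Finset.card_sdiff_comm (by rw [J.2, J'.2])
  set m := (J.1 \ J'.1).card with hm
  have hm1 : 1 ≤ m := by
    rw [hm, Nat.one_le_iff_ne_zero]
    intro h0
    rw [Finset.card_eq_zero, Finset.sdiff_eq_empty_iff_subset] at h0
    apply hJ
    apply Subtype.ext
    exact Finset.eq_of_subset_of_card_le h0 (by rw [J.2, J'.2])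
  have hb : n - k - 1 < n := by omega
  have ht : n - k < n := by omega
  have h1 : ∏ j ∈ J.1 \ J'.1, lam j ≤ lam ⟨n - k - 1, hb⟩ ^ m := by
    rw [hm, ← Finset.prod_const]
    apply Finset.prod_le_prod
    · intro i _
      exact (hpos _).le
    · intro i hi
      rw [Finset.mem_sdiff, mem_J0] at hi
      apply hmono
      rw [Fin.le_def]
      simp only
      omega
  have h2 : lam ⟨n - k, ht⟩ ^ m ≤ ∏ j ∈ J'.1 \ J.1, lam j := by
    rw [hcard, ← Finset.prod_const]
    apply Finset.prod_le_prod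
    · intro i _
      exact (hpos _).le
    · intro i hi
      rw [Finset.mem_sdiff, mem_J0] at hi
      apply hmono
      rw [Fin.le_def]
      simp only
      omega
  have h3 : g * lam ⟨n - k - 1, hb⟩ ^ m ≤ lam ⟨n - k, ht⟩ ^ m := by
    have h4 := hgap ⟨n - k - 1, hb⟩ ⟨n - k, ht⟩ (by simp only; omega) (by simp only; omega)
    have h5 : (g * lam ⟨n - k - 1, hb⟩) ^ m ≤ lam ⟨n - k, ht⟩ ^ m :=
      pow_le_pow_left₀ (by have := hpos ⟨n - k - 1, hb⟩; positivity) h4 m
    rw [mul_pow] at h5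
    have h6 : g ≤ g ^ m := le_self_pow₀ hg (by omega)
    have h7 : 0 ≤ lam ⟨n - k - 1, hb⟩ ^ m := pow_nonneg (hpos _).le _
    exact (mul_le_mul_of_nonneg_right h6 h7).trans h5
  have h8 : g * ∏ j ∈ J.1 \ J'.1, lam j ≤ ∏ j ∈ J'.1 \ J.1, lam j := by
    have : g * ∏ j ∈ J.1 \ J'.1, lam j ≤ g * lam ⟨n - k - 1, hb⟩ ^ m :=
      mul_le_mul_of_nonneg_left h1 (by linarith)
    linarith
  unfold lamP
  rw [← Finset.prod_inter_mul_prod_sdiff J.1 J'.1 lam, ← Finset.prod_inter_mul_prod_sdiff J'.1 J.1 lam,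
    Finset.inter_comm J'.1 J.1]
  have h9 : 0 ≤ ∏ j ∈ J.1 ∩ J'.1, lam j := Finset.prod_nonneg fun i _ => (hpos i).le
  calc g * ((∏ j ∈ J.1 ∩ J'.1, lam j) * ∏ j ∈ J.1 \ J'.1, lam j)
      = (∏ j ∈ J.1 ∩ J'.1, lam j) * (g * ∏ j ∈ J.1 \ J'.1, lam j) := by ring
    _ ≤ (∏ j ∈ J.1 ∩ J'.1, lam j) * ∏ j ∈ J'.1 \ J.1, lam j := mul_le_mul_of_nonneg_left h8 h9

theorem comp (hcb : CBStmt) (hsf : SFStmt) : CompStmt := by
  classical
  intro n k hk hkn C0 hC0
  have hM2 : 2 ≤ n.choose k := by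
    obtain ⟨n', rfl⟩ : ∃ n', n = n' + 1 := ⟨n - 1, by omega⟩
    obtain ⟨k', rfl⟩ : ∃ k', k = k' + 1 := ⟨k - 1, by omega⟩
    rw [Nat.choose_succ_succ']
    have h1 := Nat.choose_pos (show k' ≤ n' by omega)
    have h2 := Nat.choose_pos (show k' + 1 ≤ n' by omega)
    omega
  have hcard : Fintype.card (Ix n k) = n.choose k := by
    rw [Fintype.card_finset_len, Fintype.card_fin]
  obtain ⟨Cg, hCg, hgeo⟩ := Pool.Agent.H393R2.geometry (n.choose k) hM2
  generalize hMdef : n.choose k = M at hM2 hcard hgeo ⊢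
  let e : Ix n k ≃ Fin M := Fintype.equivFinOfCardEq hcard
  generalize hc : (n - 1).choose (k - 1) = c
  obtain ⟨kf, hkf⟩ : ∃ kf : ℝ, kf = (k.factorial : ℝ) := ⟨_, rfl⟩
  have hkf1 : 1 ≤ kf := by
    rw [hkf]
    exact_mod_cast Nat.succ_le_of_lt k.factorial_pos
  obtain ⟨C1, hC1⟩ : ∃ C1 : ℝ, C1 = (M.factorial : ℝ) * (kf ^ M * C0 ^ c) := ⟨_, rfl⟩
  have hC11 : 1 ≤ C1 := by
    rw [hC1]
    have h1 : (1 : ℝ) ≤ (M.factorial : ℝ) := by exact_mod_cast Nat.succ_le_of_lt M.factorial_pos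
    exact one_le_mul_of_one_le_of_one_le h1
      (one_le_mul_of_one_le_of_one_le (one_le_pow₀ hkf1) (one_le_pow₀ hC0))
  have hMR : (1 : ℝ) ≤ (M : ℝ) := by exact_mod_cast (by omega : 1 ≤ M)
  refine ⟨Cg * C1 * (M * kf), ?_, ?_⟩
  · exact one_le_mul_of_one_le_of_one_le (one_le_mul_of_one_le_of_one_le hCg hC11)
      (one_le_mul_of_one_le_of_one_le hMR hkf1)
  intro L hL G lam hG hpos hmono hbd hprod g hg hgap κ3 hκ3 hdual
  have hL0 : L.det ≠ 0 := by
    intro h
    rw [h] at hL
    simp at hL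
  have hg1 : 1 ≤ g := by
    have : 1 ≤ Cg * C1 * (M * kf) :=
      one_le_mul_of_one_le_of_one_le (one_le_mul_of_one_le_of_one_le hCg hC11)
        (one_le_mul_of_one_le_of_one_le hMR hkf1)
    linarith
  have hg0 : 0 < g := by linarith
  set JJ := J0 n k hk hkn with hJJ
  -- matrices
  obtain ⟨K, hK⟩ : ∃ K, K = cpd k L := ⟨_, rfl⟩
  obtain ⟨CZ, hCZ⟩ : ∃ CZ, CZ = cpd k G.transpose := ⟨_, rfl⟩
  have hKdet : |K.det| = 1 := by
    rw [hK, hsf n k hk hkn.le L hL0, abs_pow, hL, one_pow]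
  have hK0 : K.det ≠ 0 := by
    intro h
    rw [h] at hKdet
    simp at hKdet
  have hKu : IsUnit K.det := isUnit_iff_ne_zero.2 hK0
  have hZ0 : G.transpose.det ≠ 0 := by
    rw [Matrix.det_transpose]
    exact hG
  have hZR : (G.transpose.map (Int.cast : ℤ → ℝ)).det = ((G.transpose.det : ℤ) : ℝ) := by
    have := (Int.castRingHom ℝ).map_det G.transpose
    simp only [eq_intCast] at this
    rw [this]
    rfl
  have hCZR : (CZ.map (Int.cast : ℤ → ℝ)).det = ((CZ.det : ℤ) : ℝ) := by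
    have := (Int.castRingHom ℝ).map_det CZ
    simp only [eq_intCast] at this
    rw [this]
    rfl
  have hD0 : CZ.det ≠ 0 := by
    intro h
    rw [h, hCZ, cpd_map, hsf n k hk hkn.le _ (by rw [hZR]; exact_mod_cast hZ0), hZR] at hCZR
    rw [Int.cast_zero] at hCZR
    exact hZ0 (by exact_mod_cast eq_zero_of_pow_eq_zero hCZR)
  obtain ⟨ZR, hZRdef⟩ : ∃ ZR, ZR = G.transpose.map (Int.cast : ℤ → ℝ) := ⟨_, rfl⟩
  obtain ⟨CR, hCR⟩ : ∃ CR, CR = CZ.map (Int.cast : ℤ → ℝ) := ⟨_, rfl⟩
  have hCR' : CR = cpd k ZR := by rw [hCR, hCZ, cpd_map, hZRdef]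
  obtain ⟨P, hP⟩ : ∃ P, P = K * CR := ⟨_, rfl⟩
  have hP' : P = cpd k (L * ZR) := by rw [hP, hK, hCR', cpd_mul hcb]
  have hPb : ∀ I J, |P I J| ≤ kf * lamP lam J := by
    intro I J
    rw [hP', ← lamP_eq, hkf]
    have := det_bound ((L * ZR).submatrix (I.1.orderEmbOfFin I.2) (J.1.orderEmbOfFin J.2))
      (fun j => lam (J.1.orderEmbOfFin J.2 j)) (by
        intro i j
        rw [Matrix.submatrix_apply, Matrix.mul_apply]
        have h1 := hbd (J.1.orderEmbOfFin J.2 j) (I.1.orderEmbOfFin I.2 i)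
        rw [hZRdef]
        exact h1)
    rw [Fintype.card_fin] at this
    exact this
  -- the vector `y`
  obtain ⟨y, hy⟩ : ∃ y : Ix n k → ℤ, y = fun I => CZ.adjugate JJ I := ⟨_, rfl⟩
  have hyC : ∀ J, ∑ I, y I * CZ I J = if JJ = J then CZ.det else 0 := by
    intro J
    have h1 := congrFun (congrFun (Matrix.adjugate_mul CZ) JJ) J
    rw [Matrix.mul_apply] at h1
    rw [hy]
    simp only
    rw [h1, Matrix.smul_apply, Matrix.one_apply, smul_eq_mul]
    split_ifs <;> simp
  have hy0 : y ≠ 0 := by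
    intro h
    have h1 := hyC JJ
    rw [if_pos rfl, h] at h1
    simp at h1
    exact hD0 h1.symm
  have hlam0 : 0 < lamP lam JJ := lamP_pos hpos JJ
  have hkf0 : 0 < kf := by linarith
  have hMpos : (0 : ℝ) < M := by linarith
  -- `κ₁`
  have hx1 : ∀ I, |((K⁻¹).transpose.mulVec (fun i => (y i : ℝ))) I| ≤ C1 / lamP lam JJ := by
    intro I
    have h1 : ((K⁻¹).transpose.mulVec (fun i => (y i : ℝ))) I =
        (K.det)⁻¹ * P.adjugate JJ I := by
      rw [hP, Matrix.adjugate_mul_distrib, Matrix.mul_apply, Matrix.mulVec, dotProduct,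
        Matrix.inv_def, Finset.mul_sum]
      apply Finset.sum_congr rfl
      intro I' _
      have h2 : CR.adjugate JJ I' = ((CZ.adjugate JJ I' : ℤ) : ℝ) := by
        have h3 := (Int.castRingHom ℝ).map_adjugate CZ
        have h4 := congrFun (congrFun h3 JJ) I'
        rw [hCR]
        exact h4.symm
      rw [h2, hy]
      simp only [Matrix.transpose_apply, Matrix.smul_apply, smul_eq_mul, Ring.inverse_eq_inv']
      ring
    rw [h1, abs_mul, abs_inv, hKdet, inv_one, one_mul]
    have h2 : P.adjugate JJ I = (P.updateCol JJ (Pi.single I 1)).det := by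
      have h3 : P.adjugate JJ I = P.transpose.adjugate I JJ := by
        rw [← Matrix.adjugate_transpose]
        rfl
      rw [h3, Matrix.adjugate_apply, ← Matrix.det_transpose, Matrix.updateRow_transpose,
        Matrix.transpose_transpose]
    rw [h2]
    have h3 := det_bound (P.updateCol JJ (Pi.single I 1))
      (fun J => if J = JJ then 1 else kf * lamP lam J) (by
        intro I' J
        by_cases hJ : J = JJ
        · rw [if_pos hJ, hJ, Matrix.updateCol_self]
          by_cases hI : I' = I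
          · rw [hI, Pi.single_eq_same]
            simp
          · rw [Pi.single_eq_of_ne hI]
            simp
        · rw [if_neg hJ, Matrix.updateCol_ne hJ]
          exact hPb I' J)
    refine h3.trans ?_
    rw [hcard, le_div_iff₀ hlam0, hC1, mul_assoc]
    apply mul_le_mul_of_nonneg_left _ (by positivity)
    have h4 : (∏ J : Ix n k, if J = JJ then (1 : ℝ) else kf * lamP lam J) *
        (kf * lamP lam JJ) = ∏ J : Ix n k, kf * lamP lam J := by
      rw [← Finset.mul_prod_erase Finset.univ (fun J : Ix n k => kf * lamP lam J) (Finset.mem_univ JJ),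
        ← Finset.mul_prod_erase Finset.univ (fun J : Ix n k => if J = JJ then (1 : ℝ) else kf * lamP lam J)
          (Finset.mem_univ JJ), if_pos rfl, one_mul, mul_comm]
      congr 1
      apply Finset.prod_congr rfl
      intro J hJ
      rw [if_neg (Finset.ne_of_mem_erase hJ)]
    have h5 : ∏ J : Ix n k, kf * lamP lam J ≤ kf ^ M * C0 ^ c := by
      rw [Finset.prod_mul_distrib, Finset.prod_const, Finset.card_univ, hcard,
        prod_lamP hsf hk hkn.le hpos, hc]
      apply mul_le_mul_of_nonneg_left _ (by positivity)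
      exact pow_le_pow_left₀ (Finset.prod_nonneg fun i _ => (hpos i).le) hprod _
    have h6 : (∏ J : Ix n k, if J = JJ then (1 : ℝ) else kf * lamP lam J) * lamP lam JJ ≤
        (∏ J : Ix n k, if J = JJ then (1 : ℝ) else kf * lamP lam J) *
          (kf * lamP lam JJ) := by
      apply mul_le_mul_of_nonneg_left
      · exact le_mul_of_one_le_left hlam0.le hkf1
      · apply Finset.prod_nonneg
        intro J _
        split_ifs
        · norm_num
        · have := lamP_pos (k := k) hpos J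
          positivity
    rw [h4] at h6
    exact h6.trans h5
  -- `κ₂`
  have hx2 : ∀ x' : Ix n k → ℤ, (∀ s t : ℤ, s • y + t • x' = 0 → s = 0 ∧ t = 0) →
      ∃ I, g / (M * kf * lamP lam JJ) ≤ |((K⁻¹).transpose.mulVec (fun i => (x' i : ℝ))) I| := by
    intro x' hx'
    obtain ⟨J, hJ, haJ⟩ : ∃ J, J ≠ JJ ∧ ∑ I, x' I * CZ I J ≠ 0 := by
      by_contra hcon
      push Not at hcon
      have h1 : (-(∑ I, x' I * CZ I JJ)) • y + CZ.det • x' = 0 := by
        apply Matrix.eq_zero_of_vecMul_eq_zero hD0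
        funext J
        have h2 : Matrix.vecMul ((-(∑ I, x' I * CZ I JJ)) • y + CZ.det • x') CZ =
            fun J => -(∑ I, x' I * CZ I JJ) * (∑ I, y I * CZ I J) +
              CZ.det * ∑ I, x' I * CZ I J := by
          funext J
          simp only [Matrix.vecMul, dotProduct, Pi.add_apply, Pi.smul_apply, smul_eq_mul]
          rw [Finset.mul_sum, Finset.mul_sum, ← Finset.sum_add_distrib]
          apply Finset.sum_congr rfl
          intro I _
          ring
        rw [h2]
        simp only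
        rw [hyC]
        by_cases hJ : JJ = J
        · rw [if_pos hJ, ← hJ]
          simp only [Pi.zero_apply]
          ring
        · rw [if_neg hJ, hcon J (fun h => hJ h.symm)]
          simp
      exact hD0 (hx' _ _ h1).2
    by_contra hcon
    push Not at hcon
    obtain ⟨v, hv⟩ : ∃ v, v = (K⁻¹).transpose.mulVec (fun i => (x' i : ℝ)) := ⟨_, rfl⟩
    rw [← hv] at hcon
    have hvP : ((∑ I, x' I * CZ I J : ℤ) : ℝ) = ∑ I, v I * P I J := by
      have h1 : Matrix.vecMul v P = Matrix.vecMul (fun i => (x' i : ℝ)) CR := by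
        rw [hv, Matrix.mulVec_transpose, hP, Matrix.vecMul_vecMul,
          Matrix.nonsing_inv_mul_cancel_left _ _ hKu]
      have h2 := congrFun h1 J
      simp only [Matrix.vecMul, dotProduct] at h2
      rw [h2, hCR]
      push_cast
      rfl
    have hlJ : 0 < lamP lam J := lamP_pos hpos J
    have h3 : |((∑ I, x' I * CZ I J : ℤ) : ℝ)| < 1 := by
      rw [hvP]
      calc |∑ I, v I * P I J| ≤ ∑ I, |v I * P I J| := Finset.abs_sum_le_sum_abs _ _
        _ ≤ ∑ I, |v I| * (kf * lamP lam J) := by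
            apply Finset.sum_le_sum
            intro I _
            rw [abs_mul]
            exact mul_le_mul_of_nonneg_left (hPb I J) (abs_nonneg _)
        _ < ∑ _I : Ix n k, g / (M * kf * lamP lam JJ) * (kf * lamP lam J) := by
            apply Finset.sum_lt_sum_of_nonempty ⟨JJ, Finset.mem_univ _⟩
            intro I _
            exact mul_lt_mul_of_pos_right (hcon I) (by positivity)
        _ = (g * lamP lam J) / lamP lam JJ := by
            rw [Finset.sum_const, Finset.card_univ, hcard, nsmul_eq_mul]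
            field_simp
        _ ≤ 1 := by
            rw [div_le_one hlam0]
            exact lamP_gap hk hkn hpos hmono hg1 hgap hJ
    have h4 : (1 : ℝ) ≤ |((∑ I, x' I * CZ I J : ℤ) : ℝ)| := by
      have := Int.one_le_abs haJ
      exact_mod_cast this
    linarith
  -- the geometry of numbers
  obtain ⟨A, hA1, hA2, w, hw1, hw2, hw3⟩ := geomIx e hgeo (K⁻¹).transpose K
    (by
      rw [Matrix.det_transpose, Matrix.det_nonsing_inv, Ring.inverse_eq_inv', abs_inv, hKdet,
        inv_one])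
    (by
      rw [← Matrix.transpose_mul, Matrix.nonsing_inv_mul _ hKu, Matrix.transpose_one])
    y hy0 (C1 / lamP lam JJ) (g / (M * kf * lamP lam JJ)) κ3 (by positivity) hκ3
    (by
      rw [lt_div_iff₀ (by positivity)]
      have : Cg * (C1 / lamP lam JJ) * (M * kf * lamP lam JJ) = Cg * C1 * (M * kf) := by
        field_simp
      rw [this]
      exact hg)
    hx1 hx2 (by rw [hK]; exact hdual)
  refine ⟨A, y, w, hA1, ?_, hy0, hw1, hw2, ?_, ?_⟩
  · refine hA2.trans (le_of_eq ?_)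
    field_simp
  · rw [hK] at hw3
    exact hw3
  · intro V c0 hV
    obtain ⟨V', hV'⟩ : ∃ V', V' = G.transpose.adjugate * V := ⟨_, rfl⟩
    have h1 : G.transpose * V' = G.transpose.det • V := by
      rw [hV', ← Matrix.mul_assoc, Matrix.mul_adjugate, Matrix.smul_mul, Matrix.one_mul]
    have h2 := hcb ℤ n k G.transpose V'
    rw [h1, ← hCZ] at h2
    have h3 : ∀ I, wedge (G.transpose.det • V) I = G.transpose.det ^ k * wedge V I := by
      intro I
      have h3' : (G.transpose.det • V).submatrix (I.1.orderEmbOfFin I.2) id =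
          G.transpose.det • V.submatrix (I.1.orderEmbOfFin I.2) id := rfl
      unfold wedge
      rw [h3', Matrix.det_smul, Fintype.card_fin]
    have h4 : wedge V' JJ = 0 := by
      unfold wedge
      apply Matrix.det_eq_zero_of_column_eq_zero c0
      intro r
      rw [Matrix.submatrix_apply, hV']
      have hr : n - k ≤ ((JJ.1.orderEmbOfFin JJ.2 r : Fin n) : ℕ) := by
        rw [← mem_J0 hk hkn]
        exact Finset.orderEmbOfFin_mem JJ.1 JJ.2 r
      have h5 := hV _ hr
      have h6 : (G.transpose.adjugate * V) (JJ.1.orderEmbOfFin JJ.2 r) (id c0) =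
          (G.transpose.adjugate.mulVec (fun l => V l c0)) (JJ.1.orderEmbOfFin JJ.2 r) := rfl
      rw [h6, ← Matrix.cramer_eq_adjugate_mulVec, Matrix.cramer_apply, ← Matrix.det_transpose,
        ← Matrix.updateRow_transpose, Matrix.transpose_transpose]
      exact h5
    have h5 : G.transpose.det ^ k * ∑ I, y I * wedge V I = 0 := by
      calc G.transpose.det ^ k * ∑ I, y I * wedge V I
          = ∑ I, y I * wedge (G.transpose.det • V) I := by
            rw [Finset.mul_sum]
            apply Finset.sum_congr rfl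
            intro I _
            rw [h3]
            ring
        _ = ∑ I, y I * ∑ J, CZ I J * wedge V' J := by
            rw [h2]
            rfl
        _ = ∑ J, (∑ I, y I * CZ I J) * wedge V' J := by
            simp only [Finset.mul_sum, Finset.sum_mul]
            rw [Finset.sum_comm]
            apply Finset.sum_congr rfl
            intro J _
            apply Finset.sum_congr rfl
            intro I _
            ring
        _ = 0 := by
            apply Finset.sum_eq_zero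
            intro J _
            rw [hyC]
            by_cases hJ : JJ = J
            · rw [← hJ, h4, mul_zero]
            · rw [if_neg hJ, zero_mul]
    exact (mul_eq_zero.1 h5).resolve_left (pow_ne_zero _ hZ0)

end Pool.Agent.TH461.SST.Comp
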