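import Mathlib
import Pool.Agent.H9.Lib.R_seed8.TH461.SST.Stms
import Pool.Agent.H9.Lib.R_seed8.H393R2.Geom3

set_option autoImplicit false

open Finset Filter Topology

namespace Pool.Agent.TH461.SST.Gap

open Pool.Agent.TH461.SST
open Pool.Agent.H393R2 Pool.Agent.H393R2.Geom

theorem app_ne {n : ℕ} (L Ls : Matrix (Fin n) (Fin n) ℝ) (hLs : Ls.transpose * L = 1)
    {x : Fin n → ℤ} (hx : x ≠ 0) : app L x ≠ 0 := by
  intro h
  apply hx
  have h1 : (fun i => (x i : ℝ)) = Ls.transpose.mulVec (app L x) := by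
    rw [app_apply, Matrix.mulVec_mulVec, hLs, Matrix.one_mulVec]
  rw [h, Matrix.mulVec_zero] at h1
  funext i
  have h2 := congrFun h1 i
  simpa using h2

theorem last_lower {n : ℕ} (hn : 0 < n) (lam : Fin n → ℝ) (hpos : ∀ i, 0 < lam i)
    (hmono : ∀ i j : Fin n, i ≤ j → lam i ≤ lam j) (F : ℝ) (hF : 1 ≤ F)
    (hprod : 1 ≤ F * ∏ i, lam i) : 1 ≤ F * lam ⟨n - 1, by omega⟩ := by
  set m := lam ⟨n - 1, by omega⟩ with hm
  have hmp : 0 < m := hpos _
  rcases le_or_gt 1 m with h1 | h1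
  · nlinarith
  · have h2 : ∏ i, lam i ≤ ∏ _i : Fin n, m := by
      apply Finset.prod_le_prod
      · intro i _; exact (hpos i).le
      · intro i _
        apply hmono
        rw [Fin.le_def]
        have := i.2
        simp only
        omega
    rw [Finset.prod_const, Finset.card_univ, Fintype.card_fin] at h2
    have h3 : m ^ n ≤ m := by
      calc m ^ n ≤ m ^ 1 := pow_le_pow_of_le_one hmp.le h1.le (by omega)
        _ = m := pow_one m
    calc 1 ≤ F * ∏ i, lam i := hprod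
      _ ≤ F * m := by
        apply mul_le_mul_of_nonneg_left (h2.trans h3) (by linarith)

theorem gap : GapStmt := by
  intro n hn
  classical
  have hn0 : 0 < n := by omega
  have hfac : (1 : ℝ) ≤ (n.factorial : ℝ) := by exact_mod_cast Nat.succ_le_of_lt n.factorial_pos
  have hK : (1 : ℝ) ≤ (2 * KK n) ^ n := one_le_pow₀ (by have := one_le_KK hn0; linarith)
  refine ⟨((n.factorial : ℝ) + 1) + (2 * KK n) ^ n, by linarith, ?_⟩
  intro L Ls hL hLs x hx g hg hxs
  set C := ((n.factorial : ℝ) + 1) + (2 * KK n) ^ n with hC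
  have hCpos : 0 < C := by linarith
  have hgn : 0 < g ^ n := by positivity
  have hL0 : L.det ≠ 0 := by intro h; rw [h] at hL; simp at hL
  obtain ⟨G, hG, hmono, hmin⟩ := minima L Ls hLs
  have hup := prod_upper L G hn0 hL hG hmono hmin
  have hlow := prod_lower L G hL hG
  have hlam := lam_pos L G hL0 hG
  set κ := ‖app L x‖ with hκ
  have hκpos : 0 < κ := norm_pos_iff.2 (app_ne L Ls hLs hx)
  have hκle : C * g ^ n * κ ≤ 1 := by
    have h1 : κ ≤ 1 / (C * g ^ n) := by
      rw [hκ, pi_norm_le_iff_of_nonneg (by positivity)]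
      intro l
      rw [le_div_iff₀ (by positivity), mul_comm]
      exact hxs l
    rw [le_div_iff₀ (by positivity)] at h1
    linarith
  have hl0 : ‖app L (G ⟨0, hn0⟩)‖ ≤ κ := by
    obtain ⟨k, hk⟩ := exists_update_ne G hG hx
    exact hmin x k ⟨0, hn0⟩ (Fin.mk_le_of_le_val (Nat.zero_le _)) hk
  have hlast := last_lower hn0 (fun j => ‖app L (G j)‖) hlam hmono _ hfac hlow
  let P : ℕ → Prop := fun r => 1 ≤ r ∧ ∃ h : r < n, κ * g ^ r < ‖app L (G ⟨r, h⟩)‖
  have hPex : ∃ r, P r := by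
    refine ⟨n - 1, by omega, by omega, ?_⟩
    have h1 : g ^ (n - 1) ≤ g ^ n := pow_le_pow_right₀ hg (by omega)
    have h2 : κ * g ^ (n - 1) ≤ κ * g ^ n := mul_le_mul_of_nonneg_left h1 hκpos.le
    have h3 : (n.factorial : ℝ) * (κ * g ^ n) < 1 := by
      have : (n.factorial : ℝ) * (κ * g ^ n) < C * (κ * g ^ n) := by
        apply mul_lt_mul_of_pos_right _ (by positivity)
        linarith
      nlinarith
    have h4 : (n.factorial : ℝ) * (κ * g ^ (n - 1)) < (n.factorial : ℝ) *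
        ‖app L (G ⟨n - 1, by omega⟩)‖ := by
      have := mul_le_mul_of_nonneg_left h2 (by linarith : (0 : ℝ) ≤ (n.factorial : ℝ))
      linarith
    exact lt_of_mul_lt_mul_left h4 (by linarith)
  set r := Nat.find hPex with hr
  obtain ⟨hr1, hrn, hrlt⟩ : P r := Nat.find_spec hPex
  have hprev : ‖app L (G ⟨r - 1, by omega⟩)‖ ≤ κ * g ^ (r - 1) := by
    rcases Nat.lt_or_ge 1 r with h | h
    · have h1 := Nat.find_min hPex (m := r - 1) (by omega)
      by_contra hcon
      rw [not_le] at hcon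
      exact h1 ⟨by omega, by omega, hcon⟩
    · have h1 : r = 1 := by omega
      have h2 : (⟨r - 1, by omega⟩ : Fin n) = ⟨0, hn0⟩ := by
        rw [Fin.mk.injEq]; omega
      have h3 : r - 1 = 0 := by omega
      rw [h2, h3, pow_zero, mul_one]
      exact hl0
  refine ⟨r, hr1, hrn, G, fun i => ‖app L (G i)‖, hG, hlam, hmono, ?_, ?_, ?_, ?_⟩
  · intro i l
    exact norm_le_pi_norm (app L (G i)) l
  · refine hup.trans ?_
    linarith
  · intro i j hi hj
    have h1 : ‖app L (G i)‖ ≤ ‖app L (G ⟨r - 1, by omega⟩)‖ := hmono _ _ (by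
      rw [Fin.le_def]; simp only; omega)
    have h2 : ‖app L (G ⟨r, hrn⟩)‖ ≤ ‖app L (G j)‖ := hmono _ _ (by
      rw [Fin.le_def]; exact hj)
    have h3 : g * (κ * g ^ (r - 1)) = κ * g ^ r := by
      have : g ^ r = g ^ (r - 1) * g := by
        rw [← pow_succ]; congr 1; omega
      rw [this]; ring
    calc g * ‖app L (G i)‖ ≤ g * (κ * g ^ (r - 1)) :=
          mul_le_mul_of_nonneg_left (h1.trans hprev) (by linarith)
      _ = κ * g ^ r := h3
      _ ≤ ‖app L (G ⟨r, hrn⟩)‖ := hrlt.le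
      _ ≤ ‖app L (G j)‖ := h2
  · intro i hi
    by_contra hcon
    have h1 := hmin x i ⟨r, hrn⟩ (by rw [Fin.le_def]; exact hi) hcon
    have h2 : κ ≤ κ * g ^ r := le_mul_of_one_le_right hκpos.le (one_le_pow₀ hg)
    linarith

end Pool.Agent.TH461.SST.Gap
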