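import Mathlib
import Pool.Agent.H9.Lib.R_seed8.TH461.SST.Stms

set_option autoImplicit false

/-!
# The formula of Sylvester and Franke
-/

open Finset Filter Topology

namespace Pool.Agent.TH461.SST.SF

open Pool.Agent.TH461.SST

/-- the columns of the compound matrix are wedges -/
theorem cpd_col {R : Type} [CommRing R] {n k : ℕ} (T : Matrix (Fin n) (Fin n) R) (J : Ix n k) :
    wedge (T.submatrix id (J.1.orderEmbOfFin J.2)) = fun I => cpd k T I J := by
  funext I
  rfl

theorem cpd_mul (hcb : CBStmt) {R : Type} [CommRing R] {n k : ℕ} (S T : Matrix (Fin n) (Fin n) R) :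
    cpd k (S * T) = cpd k S * cpd k T := by
  ext I J
  have h1 := congrFun (hcb R n k S (T.submatrix id (J.1.orderEmbOfFin J.2))) I
  have h2 : S * T.submatrix id (J.1.orderEmbOfFin J.2) =
      (S * T).submatrix id (J.1.orderEmbOfFin J.2) := by
    ext i j
    simp [Matrix.mul_apply, Matrix.submatrix_apply]
  rw [h2, cpd_col, cpd_col] at h1
  refine h1.trans ?_
  rw [Matrix.mul_apply]
  rfl

/-- the order embeddings of different sets of the same size have a row without partner -/
theorem exists_not_mem {n k : ℕ} {I J : Ix n k} (h : I ≠ J) : ∃ i ∈ I.1, i ∉ J.1 := by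
  by_contra hcon
  push Not at hcon
  apply h
  apply Subtype.ext
  exact Finset.eq_of_subset_of_card_le hcon (by rw [I.2, J.2])

theorem cpd_diagonal {n k : ℕ} (d : Fin n → ℝ) :
    cpd k (Matrix.diagonal d) = Matrix.diagonal (fun I : Ix n k => ∏ i ∈ I.1, d i) := by
  classical
  ext I J
  by_cases h : I = J
  · subst h
    rw [Matrix.diagonal_apply_eq]
    unfold cpd
    have h1 : (Matrix.diagonal d).submatrix (I.1.orderEmbOfFin I.2) (I.1.orderEmbOfFin I.2) =
        Matrix.diagonal (fun a : Fin k => d (I.1.orderEmbOfFin I.2 a)) := by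
      exact Matrix.submatrix_diagonal d _ (I.1.orderEmbOfFin I.2).injective
    rw [h1, Matrix.det_diagonal]
    have h2 : I.1 = Finset.univ.image (fun a : Fin k => I.1.orderEmbOfFin I.2 a) := by
      ext x
      simp only [Finset.mem_image, Finset.mem_univ, true_and]
      constructor
      · intro hx
        refine ⟨(I.1.orderIsoOfFin I.2).symm ⟨x, hx⟩, ?_⟩
        rw [← Finset.coe_orderIsoOfFin_apply]
        simp
      · rintro ⟨a, rfl⟩
        exact Finset.orderEmbOfFin_mem _ _ _
    conv_rhs => rw [h2]
    rw [Finset.prod_image]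
    intro a _ b _ hab
    exact (I.1.orderEmbOfFin I.2).injective hab
  · rw [Matrix.diagonal_apply_ne _ h]
    obtain ⟨i, hi, hj⟩ := exists_not_mem h
    unfold cpd
    refine Matrix.det_eq_zero_of_row_eq_zero ((I.1.orderIsoOfFin I.2).symm ⟨i, hi⟩) fun b => ?_
    rw [Matrix.submatrix_apply]
    have h3 : I.1.orderEmbOfFin I.2 ((I.1.orderIsoOfFin I.2).symm ⟨i, hi⟩) = i := by
      rw [← Finset.coe_orderIsoOfFin_apply]
      simp
    rw [h3]
    refine Matrix.diagonal_apply_ne _ ?_
    intro h4
    apply hj
    rw [h4]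
    exact Finset.orderEmbOfFin_mem _ _ _

theorem cpd_one {n k : ℕ} : cpd k (1 : Matrix (Fin n) (Fin n) ℝ) = 1 := by
  rw [← Matrix.diagonal_one, cpd_diagonal]
  simp

/-- the number of `k`-sets containing `i` -/
theorem card_Ix {n k : ℕ} (hk : 1 ≤ k) (i : Fin n) :
    (Finset.univ.filter (fun I : Ix n k => i ∈ I.1)).card = (n - 1).choose (k - 1) := by
  classical
  have h1 : (Finset.powersetCard (k - 1) (Finset.univ.erase i)).card = (n - 1).choose (k - 1) := by
    rw [Finset.card_powersetCard, Finset.card_erase_of_mem (Finset.mem_univ i), Finset.card_univ,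
      Fintype.card_fin]
  rw [← h1]
  refine Finset.card_bij (fun I _ => I.1.erase i) ?_ ?_ ?_
  · intro I hI
    have hi : i ∈ I.1 := (Finset.mem_filter.1 hI).2
    rw [Finset.mem_powersetCard]
    refine ⟨Finset.erase_subset_erase _ (Finset.subset_univ _), ?_⟩
    rw [Finset.card_erase_of_mem hi, I.2]
  · intro I hI J hJ h
    have hi : i ∈ I.1 := (Finset.mem_filter.1 hI).2
    have hj : i ∈ J.1 := (Finset.mem_filter.1 hJ).2
    apply Subtype.ext
    rw [← Finset.insert_erase hi, ← Finset.insert_erase hj, h]
  · intro S hS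
    rw [Finset.mem_powersetCard] at hS
    have hi : i ∉ S := fun h => by
      have := hS.1 h
      rw [Finset.mem_erase] at this
      exact this.1 rfl
    refine ⟨⟨insert i S, ?_⟩, ?_, ?_⟩
    · rw [Finset.card_insert_of_notMem hi, hS.2]
      omega
    · rw [Finset.mem_filter]
      exact ⟨Finset.mem_univ _, Finset.mem_insert_self _ _⟩
    · exact Finset.erase_insert hi

theorem sf_diagonal {n k : ℕ} (hk : 1 ≤ k) (d : Fin n → ℝ) :
    (cpd k (Matrix.diagonal d)).det = (Matrix.diagonal d).det ^ ((n - 1).choose (k - 1)) := by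
  classical
  rw [cpd_diagonal, Matrix.det_diagonal, Matrix.det_diagonal, ← Finset.prod_pow]
  have h1 : ∀ I : Ix n k, ∏ i ∈ I.1, d i = ∏ i : Fin n, if i ∈ I.1 then d i else 1 := by
    intro I
    rw [Finset.prod_ite_mem, Finset.univ_inter]
  simp_rw [h1]
  rw [Finset.prod_comm]
  refine Finset.prod_congr rfl fun i _ => ?_
  rw [Finset.prod_ite, Finset.prod_const_one, mul_one, Finset.prod_const, card_Ix hk]

theorem sf (hcb : CBStmt) : SFStmt := by
  classical
  intro n k hk hkn T hT
  have hmul : ∀ S T : Matrix (Fin n) (Fin n) ℝ,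
      (cpd k (S * T)).det = (cpd k S).det * (cpd k T).det := by
    intro S T
    rw [cpd_mul hcb, Matrix.det_mul]
  have hone : (cpd k (1 : Matrix (Fin n) (Fin n) ℝ)).det = 1 := by rw [cpd_one, Matrix.det_one]
  have hne : ∀ T : Matrix (Fin n) (Fin n) ℝ, T.det ≠ 0 → (cpd k T).det ≠ 0 := by
    intro T hT h
    have h1 := hmul T T⁻¹
    rw [Matrix.mul_nonsing_inv T (isUnit_iff_ne_zero.2 hT), hone, h, zero_mul] at h1
    exact one_ne_zero h1
  refine Matrix.diagonal_transvection_induction_of_det_ne_zero
    (fun T : Matrix (Fin n) (Fin n) ℝ => (cpd k T).det = T.det ^ ((n - 1).choose (k - 1))) T hT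
    ?_ ?_ ?_
  · intro D _
    exact sf_diagonal hk D
  · intro t
    have hdet : t.toMatrix.det = 1 := Matrix.TransvectionStruct.det t
    rw [hdet, one_pow]
    have hij := t.hij
    set D : Fin n → ℝ := fun i => if i = t.i then 2 else 1 with hD
    have hDne : (Matrix.diagonal D).det ≠ 0 := by
      rw [Matrix.det_diagonal, Finset.prod_ne_zero_iff]
      intro i _
      simp only [hD]
      split_ifs <;> norm_num
    have hcomm : Matrix.diagonal D * t.toMatrix = (t.toMatrix * t.toMatrix) * Matrix.diagonal D := by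
      unfold Matrix.TransvectionStruct.toMatrix
      rw [Matrix.transvection_mul_transvection_same _ _ hij]
      ext a b
      rw [Matrix.diagonal_mul, Matrix.mul_diagonal]
      unfold Matrix.transvection
      rw [Matrix.add_apply, Matrix.add_apply]
      by_cases hab : a = t.i ∧ b = t.j
      · obtain ⟨rfl, rfl⟩ := hab
        have h1 : (1 : Matrix (Fin n) (Fin n) ℝ) t.i t.j = 0 := Matrix.one_apply_ne hij
        rw [h1, Matrix.single_apply_same, Matrix.single_apply_same]
        have e1 : D t.i = 2 := if_pos rfl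
        have e2 : D t.j = 1 := if_neg (Ne.symm hij)
        rw [e1, e2]
        ring
      · have h1 : ∀ c : ℝ, Matrix.single t.i t.j c a b = 0 := by
          intro c
          refine Matrix.single_apply_of_ne _ _ _ _ _ ?_
          rintro ⟨h1, h2⟩
          exact hab ⟨h1.symm, h2.symm⟩
        rw [h1, h1, add_zero]
        by_cases h2 : a = b
        · subst h2
          rw [Matrix.one_apply_eq]
          ring
        · rw [Matrix.one_apply_ne h2]
          ring
    have h1 := congrArg (fun S => (cpd k S).det) hcomm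
    simp only [hmul] at h1
    have h2 := hne _ hDne
    have h3 : (cpd k t.toMatrix).det ≠ 0 := hne _ (by rw [hdet]; exact one_ne_zero)
    have h4 : (cpd k (Matrix.diagonal D)).det * (cpd k t.toMatrix).det * 1 =
        (cpd k (Matrix.diagonal D)).det * (cpd k t.toMatrix).det * (cpd k t.toMatrix).det := by
      linear_combination h1
    exact (mul_left_cancel₀ (mul_ne_zero h2 h3) h4).symm
  · intro A B _ _ hA hB
    rw [hmul, hA, hB, Matrix.det_mul, mul_pow]

end Pool.Agent.TH461.SST.SF
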